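import Pool.Agent.Lib.MP_7fdcdd_gt.H77.Link

/-! Affine invariance of the construction. -/

namespace Pool.Agent.Lib.MP_7fdcdd_gt.H77

open MeasureTheory

variable {V : Finset E}

/-- The affine map with linear part `B` and translation `c`. -/
def af (B : E →ₗ[ℝ] E) (c : E) : E →ᵃ[ℝ] E where
  toFun x := B x + c
  linear := B
  map_vadd' p v := by simp only [vadd_eq_add, map_add]; abel

lemma af_apply (B : E →ₗ[ℝ] E) (c x : E) : af B c x = B x + c := rfl

lemma vol_af (B : E →ₗ[ℝ] E) (c : E) (S : Set E) :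
    volume (af B c '' S) = ENNReal.ofReal |LinearMap.det B| * volume S := by
  have : af B c '' S = (fun x => x + c) '' (B '' S) := by
    rw [Set.image_image]; rfl
  rw [this, Set.image_add_right, measure_preimage_add_right, Measure.addHaar_image_linearMap]

lemma af_bij (B : E ≃ₗ[ℝ] E) (c : E) : Function.Bijective (af B c) := by
  constructor
  · intro x y h
    exact B.injective (add_right_cancel h)
  · intro y
    exact ⟨B.symm (y - c), by simp [af_apply]⟩

lemma cv_image [DecidableEq E] (f : E →ᵃ[ℝ] E) (V : Finset E) : cv (V.image f) = f '' cv V := by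
  rw [cv, cv, Finset.coe_image, AffineMap.image_convexHull]

lemma CP.image [DecidableEq E] (hV : CP V) (B : E ≃ₗ[ℝ] E) (c : E) : CP (V.image (af B c)) := by
  intro v hv
  obtain ⟨a, ha, rfl⟩ := Finset.mem_image.1 hv
  obtain ⟨l, hl⟩ := hV a ha
  refine ⟨l ∘ₗ B.symm.toLinearMap, fun w hw hne => ?_⟩
  obtain ⟨b, hb, rfl⟩ := Finset.mem_image.1 hw
  have := hl b hb (fun h => hne (by rw [h]))
  simpa [af_apply] using this

lemma adj_image [DecidableEq E] (B : E ≃ₗ[ℝ] E) (c : E) {a b : E} :
    Adj (V.image (af B c)) (af B c a) (af B c b) ↔ Adj V a b := by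
  have hinj := (af_bij B c).1
  constructor
  · rintro ⟨ha, hb, hab, l, hl⟩
    refine ⟨(hinj.mem_finset_image).1 ha, (hinj.mem_finset_image).1 hb, fun h => hab (by rw [h]),
      l ∘ₗ B.toLinearMap, fun d hd h1 h2 => ?_⟩
    have := hl _ (Finset.mem_image_of_mem _ hd) (fun h => h1 (hinj h)) (fun h => h2 (hinj h))
    simpa [af_apply] using this
  · rintro ⟨ha, hb, hab, l, hl⟩
    refine ⟨Finset.mem_image_of_mem _ ha, Finset.mem_image_of_mem _ hb, fun h => hab (hinj h),
      l ∘ₗ B.symm.toLinearMap, fun w hw h1 h2 => ?_⟩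
    obtain ⟨d, hd, rfl⟩ := Finset.mem_image.1 hw
    have := hl d hd (fun h => h1 (by rw [h])) (fun h => h2 (by rw [h]))
    simpa [af_apply] using this

lemma nxt_image [DecidableEq E] (B : E ≃ₗ[ℝ] E) (c : E) (V : Finset E) :
    nxt (V.image (af B c)) = (nxt V).image (af B c) := by
  ext m
  rw [mem_nxt, Finset.mem_image]
  constructor
  · rintro ⟨a', b', h, rfl⟩
    obtain ⟨a, -, rfl⟩ := Finset.mem_image.1 h.1
    obtain ⟨b, -, rfl⟩ := Finset.mem_image.1 h.2.1
    exact ⟨_, ((adj_image B c).1 h).mid_mem, AffineMap.map_midpoint _ _ _⟩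
  · rintro ⟨q, hq, rfl⟩
    obtain ⟨a, b, h, rfl⟩ := mem_nxt.1 hq
    exact ⟨_, _, (adj_image B c).2 h, AffineMap.map_midpoint _ _ _⟩

lemma ker_image [DecidableEq E] (B : E ≃ₗ[ℝ] E) (c : E) (V : Finset E) :
    ker (V.image (af B c)) = af B c '' ker V := by
  have h : ∀ k, nxt^[k] (V.image (af B c)) = (nxt^[k] V).image (af B c) := by
    intro k
    induction k with
    | zero => rfl
    | succ k ih => rw [Function.iterate_succ_apply', Function.iterate_succ_apply', ih, nxt_image]
  rw [ker, ker, Set.image_iInter (af_bij B c)]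
  exact Set.iInter_congr fun k => by rw [h, cv_image]

lemma rho_cv (hV : CP V) : rho (cv V) = (volume (ker V)).toReal / (volume (cv V)).toReal := by
  rw [rho, kernel_cv hV]; rfl

lemma rho_image [DecidableEq E] (hV : CP V) (B : E ≃ₗ[ℝ] E) (c : E) :
    rho (cv (V.image (af B c))) = rho (cv V) := by
  rw [rho_cv (hV.image B c), rho_cv hV, ker_image, cv_image, vol_af, vol_af, ENNReal.toReal_mul,
    ENNReal.toReal_mul, ENNReal.toReal_ofReal (abs_nonneg _)]
  exact mul_div_mul_left _ _ (abs_ne_zero.2 (LinearEquiv.isUnit_det' B).ne_zero)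

end Pool.Agent.Lib.MP_7fdcdd_gt.H77
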