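import Pool.Agent.Lib.MP_7fdcdd_gt.H77.Simplex
import Pool.Agent.Lib.MP_7fdcdd_gt.H77.Affine

/-! The first five polytopes of a regular tetrahedron, and an upper bound for its kernel. -/

namespace Pool.Agent.Lib.MP_7fdcdd_gt.H77

open MeasureTheory

abbrev Z3 := ℤ × ℤ × ℤ

/-- An integer point as a point of three-space. -/
def cs (p : Z3) : E := ![p.1, p.2.1, p.2.2]

/-- Integer dot product. -/
def dz (p q : Z3) : ℤ := p.1 * q.1 + p.2.1 * q.2.1 + p.2.2 * q.2.2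

/-- An integer functional. -/
noncomputable def dl (n : Z3) : L :=
  (n.1 : ℝ) • LinearMap.proj 0 + (n.2.1 : ℝ) • LinearMap.proj 1 + (n.2.2 : ℝ) • LinearMap.proj 2

lemma dl_apply (n : Z3) (x : E) : dl n x = n.1 * x 0 + n.2.1 * x 1 + n.2.2 * x 2 := by
  simp [dl]

lemma dl_cs (n p : Z3) : dl n (cs p) = (dz n p : ℝ) := by
  simp [dl_apply, cs, dz]

lemma cs_inj : Function.Injective cs := by
  rintro ⟨a, b, c⟩ ⟨d, e, f⟩ h
  have h0 := congrFun h 0
  have h1 := congrFun h 1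
  have h2 := congrFun h 2
  simp [cs] at h0 h1 h2
  simp [h0, h1, h2]

lemma cs_add (p q : Z3) : cs (p + q) = cs p + cs q := by
  ext i; fin_cases i <;> simp [cs]

lemma mid_cs {a b p q : Z3} (h : a + b = p + q) :
    midpoint ℝ (cs a) (cs b) = midpoint ℝ (cs p) (cs q) := by
  rw [midpoint_eq_smul_add, midpoint_eq_smul_add, ← cs_add, ← cs_add, h]

open Classical in
/-- A list of integer points as a finite set of points. -/
noncomputable def fs (S : List Z3) : Finset E := (S.map cs).toFinset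

lemma mem_fs {S : List Z3} {x : E} : x ∈ fs S ↔ ∃ p ∈ S, cs p = x := by
  simp [fs]

lemma nxt_fs {S S' : List Z3}
    (c1 : ∀ p ∈ S', ∃ a ∈ S, ∃ b ∈ S, a ≠ b ∧ a + b = p + p ∧
      ∀ c ∈ S, c ≠ a → c ≠ b → dz p c < dz p a ∧ dz p c < dz p b)
    (c2 : ∀ a ∈ S, ∀ b ∈ S, a ≠ b →
      (∃ p ∈ S', a + b = p + p) ∨ ∃ p ∈ S', ∃ q ∈ S', p ≠ q ∧ a + b = p + q) :
    nxt (fs S) = fs S' := by
  have h1 : ∀ p ∈ S', cs p ∈ nxt (fs S) := fun p hp => by
    obtain ⟨a, ha, b, hb, hab, he, hl⟩ := c1 p hp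
    refine mem_nxt.2 ⟨cs a, cs b, ⟨mem_fs.2 ⟨a, ha, rfl⟩, mem_fs.2 ⟨b, hb, rfl⟩,
      fun h => hab (cs_inj h), dl p, fun x hx h1 h2 => ?_⟩, by rw [mid_cs he, midpoint_self]⟩
    obtain ⟨c, hc, rfl⟩ := mem_fs.1 hx
    have := hl c hc (fun h => h1 (by rw [h])) (fun h => h2 (by rw [h]))
    rw [dl_cs, dl_cs, dl_cs]
    exact_mod_cast this
  ext m
  constructor
  · intro hm
    obtain ⟨x, y, h, rfl⟩ := mem_nxt.1 hm
    obtain ⟨a, ha, rfl⟩ := mem_fs.1 h.1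
    obtain ⟨b, hb, rfl⟩ := mem_fs.1 h.2.1
    rcases c2 a ha b hb (fun h' => h.2.2.1 (by rw [h'])) with ⟨p, hp, he⟩ | ⟨p, hp, q, hq, hpq, he⟩
    · exact mem_fs.2 ⟨p, hp, by rw [mid_cs he, midpoint_self]⟩
    · exfalso
      obtain ⟨l, hl⟩ := CP.nxt _ _ hm
      have e := congrArg l (mid_cs he)
      rw [map_mid l (cs p)] at e
      have hle : ∀ r ∈ S', l (cs r) ≤ l (midpoint ℝ (cs a) (cs b)) := fun r hr => by
        by_cases h' : cs r = midpoint ℝ (cs a) (cs b)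
        · rw [h']
        · exact (hl _ (h1 r hr) h').le
      by_cases h2 : cs p = midpoint ℝ (cs a) (cs b)
      · have h3 : cs q ≠ midpoint ℝ (cs a) (cs b) := fun h3 => hpq (cs_inj (h2.trans h3.symm))
        linarith [hl _ (h1 q hq) h3, hle p hp]
      · linarith [hl _ (h1 p hp) h2, hle q hq]
  · intro hm
    obtain ⟨p, hp, rfl⟩ := mem_fs.1 hm
    exact h1 p hp

def S1 : List Z3 := [(4, 4, 4), (4, -4, -4), (-4, 4, -4), (-4, -4, 4)]
def S2 : List Z3 := [(4, 0, 0), (-4, 0, 0), (0, 4, 0), (0, -4, 0), (0, 0, 4), (0, 0, -4)]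
def S3 : List Z3 := [(2, 2, 0), (2, -2, 0), (-2, 2, 0), (-2, -2, 0), (2, 0, 2), (2, 0, -2),
  (-2, 0, 2), (-2, 0, -2), (0, 2, 2), (0, 2, -2), (0, -2, 2), (0, -2, -2)]
def S4 : List Z3 := [(2, 1, 1), (2, 1, -1), (2, -1, 1), (2, -1, -1), (-2, 1, 1), (-2, 1, -1),
  (-2, -1, 1), (-2, -1, -1), (1, 2, 1), (1, 2, -1), (-1, 2, 1), (-1, 2, -1), (1, -2, 1),
  (1, -2, -1), (-1, -2, 1), (-1, -2, -1), (1, 1, 2), (1, -1, 2), (-1, 1, 2), (-1, -1, 2),
  (1, 1, -2), (1, -1, -2), (-1, 1, -2), (-1, -1, -2)]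

lemma CP_S1 : CP (fs S1) := by
  have h : ∀ p ∈ S1, ∀ c ∈ S1, c ≠ p → dz p c < dz p p := by decide +kernel
  intro v hv
  obtain ⟨p, hp, rfl⟩ := mem_fs.1 hv
  refine ⟨dl p, fun w hw hne => ?_⟩
  obtain ⟨c, hc, rfl⟩ := mem_fs.1 hw
  rw [dl_cs, dl_cs]
  exact_mod_cast h p hp c hc (fun h => hne (by rw [h]))

lemma nxt_S1 : nxt (fs S1) = fs S2 := nxt_fs (by decide +kernel) (by decide +kernel)
lemma nxt_S2 : nxt (fs S2) = fs S3 := nxt_fs (by decide +kernel) (by decide +kernel)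
lemma nxt_S3 : nxt (fs S3) = fs S4 := nxt_fs (by decide +kernel) (by decide +kernel)

lemma ker_S1 : ker (fs S1) ⊆ cv (nxt (fs S4)) := by
  rw [← ker_nxt, nxt_S1, ← ker_nxt, nxt_S2, ← ker_nxt, nxt_S3, ← ker_nxt]
  exact ker_subset _

/-- Coefficients and bounds of the facets of the fifth polytope. -/
def Cf : List (Z3 × ℤ) := [((1, 0, 0), 2), ((0, 1, 0), 2), ((0, 0, 1), 2), ((1, 1, 0), 3),
  ((1, 0, 1), 3), ((0, 1, 1), 3), ((1, 1, 1), 4), ((3, 1, 1), 7), ((1, 3, 1), 7), ((1, 1, 3), 7)]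

lemma Cf_check : ∀ e0 ∈ [(1 : ℤ), -1], ∀ e1 ∈ [(1 : ℤ), -1], ∀ e2 ∈ [(1 : ℤ), -1], ∀ c ∈ Cf,
    ∀ a ∈ S4, ∀ b ∈ S4, a ≠ b → dz (e0 * c.1.1, e1 * c.1.2.1, e2 * c.1.2.2) a +
      dz (e0 * c.1.1, e1 * c.1.2.1, e2 * c.1.2.2) b ≤ 2 * c.2 := by decide +kernel

lemma abs_bound {x : E} (hx : x ∈ cv (nxt (fs S4))) {c : Z3 × ℤ} (hc : c ∈ Cf) :
    (c.1.1 : ℝ) * |x 0| + c.1.2.1 * |x 1| + c.1.2.2 * |x 2| ≤ c.2 := by
  have hs : ∀ t : ℝ, ∃ e ∈ [(1 : ℤ), -1], |t| = e * t := fun t => by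
    rcases abs_cases t with h | h
    · exact ⟨1, by simp, by simp [h.1]⟩
    · exact ⟨-1, by simp, by simp [h.1]⟩
  obtain ⟨e0, h0, a0⟩ := hs (x 0)
  obtain ⟨e1, h1, a1⟩ := hs (x 1)
  obtain ⟨e2, h2, a2⟩ := hs (x 2)
  have := le_of_mem_cv (l := dl (e0 * c.1.1, e1 * c.1.2.1, e2 * c.1.2.2)) (M := c.2)
    (fun m hm => by
      obtain ⟨x, y, h, rfl⟩ := mem_nxt.1 hm
      obtain ⟨a, ha, rfl⟩ := mem_fs.1 h.1
      obtain ⟨b, hb, rfl⟩ := mem_fs.1 h.2.1
      have h3 := Cf_check e0 h0 e1 h1 e2 h2 c hc a ha b hb (fun h' => h.2.2.1 (by rw [h']))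
      rw [map_mid, dl_cs, dl_cs]
      have h4 : ((dz (e0 * c.1.1, e1 * c.1.2.1, e2 * c.1.2.2) a : ℤ) : ℝ) +
        (dz (e0 * c.1.1, e1 * c.1.2.1, e2 * c.1.2.2) b : ℤ) ≤ 2 * (c.2 : ℝ) := by exact_mod_cast h3
      linarith) hx
  rw [dl_apply] at this
  push_cast at this
  rw [a0, a1, a2]
  linarith

/-- The part of the fifth polytope in the fundamental chamber. -/
def Ch : Set E := {y | y 1 ≤ y 0 ∧ y 2 ≤ y 1 ∧ 0 ≤ y 2 ∧ y 0 ≤ 2 ∧ y 0 + y 1 ≤ 3 ∧
  y 0 + y 1 + y 2 ≤ 4 ∧ 3 * y 0 + y 1 + y 2 ≤ 7}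

lemma mem_sx {p q r y : E} (α β γ : ℝ) (h0 : 0 ≤ α) (h1 : 0 ≤ β) (h2 : 0 ≤ γ) (h3 : α + β + γ ≤ 1)
    (e0 : α * p 0 + β * q 0 + γ * r 0 = y 0) (e1 : α * p 1 + β * q 1 + γ * r 1 = y 1)
    (e2 : α * p 2 + β * q 2 + γ * r 2 = y 2) : y ∈ lin3 p q r '' D0 := by
  refine ⟨![α, β, γ], ⟨h0, h1, h2, h3⟩, ?_⟩
  rw [lin3_apply]
  ext i
  fin_cases i
  · simpa using e0
  · simpa using e1
  · simpa using e2

lemma vol_Ch : volume Ch ≤ ENNReal.ofReal (127 / 24) * volume D0 := by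
  have hc : Ch ⊆ (((lin3 ![2, 0, 0] ![2, 1, 0] ![2, 1 / 2, 1 / 2] '' D0 ∪
      lin3 ![2, 1, 0] ![3 / 2, 3 / 2, 0] ![3 / 2, 3 / 2, 1] '' D0) ∪
      lin3 ![4 / 3, 4 / 3, 4 / 3] ![3 / 2, 3 / 2, 1] ![3 / 2, 5 / 4, 5 / 4] '' D0) ∪
      lin3 ![2, 1, 0] ![2, 1 / 2, 1 / 2] ![3 / 2, 5 / 4, 5 / 4] '' D0) ∪
      lin3 ![2, 1, 0] ![3 / 2, 5 / 4, 5 / 4] ![3 / 2, 3 / 2, 1] '' D0 := by
    rintro y ⟨h1, h2, h3, h4, h5, h6, h7⟩
    rcases le_total 0 (y 0 - 2 * y 1 - 2 * y 2) with c1 | c1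
    · exact Or.inl (Or.inl (Or.inl (Or.inl (mem_sx (y 0 / 2 - y 1 - y 2) (y 1 - y 2) (2 * y 2)
        (by linarith) (by linarith) (by linarith) (by linarith) (by simp; ring) (by simp; ring)
        (by simp; ring)))))
    rcases le_total 0 (5 * y 0 - 10 * y 1 + 4 * y 2) with c2 | c2
    · exact Or.inl (Or.inr (mem_sx (y 1 - y 2) ((5 * y 0 - 10 * y 1 + 4 * y 2) / 7)
        ((-2 * y 0 + 4 * y 1 + 4 * y 2) / 7)
        (by linarith) (by linarith) (by linarith) (by linarith) (by simp; ring) (by simp; ring)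
        (by simp; ring)))
    rcases le_total 0 (2 * y 0 - 4 * y 1 + 3 * y 2) with c3 | c3
    · rcases le_total 0 (5 * y 0 - 3 * y 1 - 3 * y 2) with c4 | c4
      · exact Or.inr (mem_sx ((5 * y 0 - 3 * y 1 - 3 * y 2) / 7)
          ((8 * y 0 - 16 * y 1 + 12 * y 2) / 7) ((-10 * y 0 + 20 * y 1 - 8 * y 2) / 7)
          (by linarith) (by linarith) (by linarith) (by linarith) (by simp; ring) (by simp; ring)
          (by simp; ring))
      · exact Or.inl (Or.inl (Or.inr (mem_sx ((-15 * y 0 + 9 * y 1 + 9 * y 2) / 4)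
          (2 * y 1 - 2 * y 2) (4 * y 0 - 4 * y 1)
          (by linarith) (by linarith) (by linarith) (by linarith) (by simp; ring) (by simp; ring)
          (by simp; ring))))
    · exact Or.inl (Or.inl (Or.inl (Or.inr (mem_sx (y 0 - y 1)
        ((-2 * y 0 + 4 * y 1 - 3 * y 2) / 3) (y 2)
        (by linarith) (by linarith) (by linarith) (by linarith) (by simp; ring) (by simp; ring)
        (by simp)))))
  refine (measure_mono hc).trans ?_
  refine (measure_union_le _ _).trans ?_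
  refine (add_le_add_left (measure_union_le _ _) _).trans ?_
  refine (add_le_add_left (add_le_add_left (measure_union_le _ _) _) _).trans ?_
  refine (add_le_add_left (add_le_add_left (add_le_add_left (measure_union_le _ _) _) _) _).trans ?_
  simp only [vol_lin3, ← add_mul]
  refine mul_le_mul_left (le_of_eq ?_) _
  rw [← ENNReal.ofReal_add (abs_nonneg _) (abs_nonneg _),
    ← ENNReal.ofReal_add (by positivity) (abs_nonneg _),
    ← ENNReal.ofReal_add (by positivity) (abs_nonneg _),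
    ← ENNReal.ofReal_add (by positivity) (abs_nonneg _)]
  congr 1
  simp only [det3, Matrix.cons_val_zero, Matrix.cons_val_one, Matrix.cons_val]
  norm_num [abs_of_nonneg, abs_of_nonpos]

/-- Signed permutations of the coordinates. -/
noncomputable def sg (e : Fin 3 → Bool) (π : Equiv.Perm (Fin 3)) : E →ₗ[ℝ] E :=
  Matrix.toLin' (Matrix.diagonal (fun i => if e i then (1 : ℝ) else -1) * π.permMatrix ℝ)

lemma sg_apply (e : Fin 3 → Bool) (π : Equiv.Perm (Fin 3)) (y : E) (i : Fin 3) :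
    sg e π y i = (if e i then (1 : ℝ) else -1) * y (π i) := by
  rw [sg, Matrix.toLin'_apply, ← Matrix.mulVec_mulVec, Matrix.permMatrix_mulVec,
    Matrix.mulVec_diagonal]
  rfl

lemma det_sg (e : Fin 3 → Bool) (π : Equiv.Perm (Fin 3)) : |LinearMap.det (sg e π)| = 1 := by
  rw [sg, LinearMap.det_toLin', Matrix.det_mul, Matrix.det_diagonal, Matrix.det_permutation,
    abs_mul, Finset.abs_prod]
  have h1 : ∀ i, |(if e i then (1 : ℝ) else -1)| = 1 := fun i => by split_ifs <;> simp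
  simp only [h1, Finset.prod_const_one, one_mul]
  rcases Int.units_eq_one_or (Equiv.Perm.sign π) with h | h <;> simp [h]

lemma ker_cover {x : E} (hx : x ∈ ker (fs S1)) :
    ∃ p : (Fin 3 → Bool) × Equiv.Perm (Fin 3), x ∈ sg p.1 p.2 '' Ch := by
  have hx' := ker_S1 hx
  have b := fun c (hc : c ∈ Cf) => abs_bound hx' hc
  have b1 := b ((1, 0, 0), 2) (by decide)
  have b2 := b ((0, 1, 0), 2) (by decide)
  have b3 := b ((0, 0, 1), 2) (by decide)
  have b4 := b ((1, 1, 0), 3) (by decide)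
  have b5 := b ((1, 0, 1), 3) (by decide)
  have b6 := b ((0, 1, 1), 3) (by decide)
  have b7 := b ((1, 1, 1), 4) (by decide)
  have b8 := b ((3, 1, 1), 7) (by decide)
  have b9 := b ((1, 3, 1), 7) (by decide)
  have b10 := b ((1, 1, 3), 7) (by decide)
  push_cast at b1 b2 b3 b4 b5 b6 b7 b8 b9 b10
  set σ := Tuple.sort (fun i => -|x i|) with hσ
  have hm := Tuple.monotone_sort (fun i => -|x i|)
  have m1 : -|x (σ 0)| ≤ -|x (σ 1)| := hm (show (0 : Fin 3) ≤ 1 by decide)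
  have m2 : -|x (σ 1)| ≤ -|x (σ 2)| := hm (show (1 : Fin 3) ≤ 2 by decide)
  have hsum : |x (σ 0)| + |x (σ 1)| + |x (σ 2)| = |x 0| + |x 1| + |x 2| := by
    have := Equiv.sum_comp σ (fun i => |x i|)
    simpa [Fin.sum_univ_three] using this
  have k1 : ∀ i, |x i| ≤ 2 := fun i => by fin_cases i <;> simp <;> linarith
  have k2 : ∀ i, |x 0| + |x 1| + |x 2| - |x i| ≤ 3 := fun i => by
    fin_cases i <;> simp <;> linarith
  have k3 : ∀ i, |x 0| + |x 1| + |x 2| + 2 * |x i| ≤ 7 := fun i => by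
    fin_cases i <;> simp <;> linarith
  refine ⟨(fun i => decide (0 ≤ x i), σ⁻¹), fun j => |x (σ j)|,
    ⟨by linarith, by linarith, abs_nonneg _, k1 _, by linarith [k2 (σ 2)], by linarith,
      by linarith [k3 (σ 0)]⟩, ?_⟩
  ext i
  rw [sg_apply]
  have hi : σ (σ⁻¹ i) = i := σ.apply_symm_apply i
  simp only [hi, decide_eq_true_eq]
  split_ifs with h
  · rw [abs_of_nonneg h, one_mul]
  · rw [abs_of_neg (not_le.1 h)]; ring

lemma vol_ker_S1 : volume (ker (fs S1)) ≤ ENNReal.ofReal 254 * volume D0 := by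
  have h1 : ker (fs S1) ⊆ ⋃ p ∈ (Finset.univ : Finset ((Fin 3 → Bool) × Equiv.Perm (Fin 3))),
      sg p.1 p.2 '' Ch := fun x hx => by
    obtain ⟨p, hp⟩ := ker_cover hx
    exact Set.mem_biUnion (Finset.mem_coe.2 (Finset.mem_univ p)) hp
  refine (measure_mono h1).trans ((measure_biUnion_finset_le _ _).trans ?_)
  have h2 : ∀ p : (Fin 3 → Bool) × Equiv.Perm (Fin 3), volume (sg p.1 p.2 '' Ch) = volume Ch :=
    fun p => by rw [Measure.addHaar_image_linearMap, det_sg]; simp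
  simp only [h2, Finset.sum_const, Finset.card_univ, Fintype.card_prod, Fintype.card_pi,
    Fintype.card_bool, Fintype.card_perm, Fintype.card_fin, Finset.prod_const, nsmul_eq_mul]
  refine (mul_le_mul_right vol_Ch _).trans (le_of_eq ?_)
  rw [← mul_assoc, ← ENNReal.ofReal_natCast, ← ENNReal.ofReal_mul (by positivity)]
  norm_num [Nat.factorial]

lemma vol_cv_S1 : ENNReal.ofReal 1024 * volume D0 ≤ volume (cv (fs S1)) := by
  have h1 : af (lin3 ![0, -8, -8] ![-8, 0, -8] ![-8, -8, 0]) ![4, 4, 4] '' D0 ⊆ cv (fs S1) := by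
    rintro _ ⟨a, ⟨h0, h1, h2, h3⟩, rfl⟩
    have := (cv_convex (fs S1)).sum_mem (t := (Finset.univ : Finset (Fin 4)))
      (w := ![1 - (a 0 + a 1 + a 2), a 0, a 1, a 2])
      (z := ![cs (4, 4, 4), cs (4, -4, -4), cs (-4, 4, -4), cs (-4, -4, 4)])
      (fun i _ => by fin_cases i <;> simp <;> linarith) (by simp [Fin.sum_univ_four]; ring)
      (fun i _ => by
        fin_cases i <;> exact mem_cv_of_mem (mem_fs.2 ⟨_, by decide, rfl⟩))
    convert this using 1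
    rw [af_apply, lin3_apply]
    ext i
    fin_cases i <;> simp [Fin.sum_univ_four, cs] <;> ring
  refine le_trans (le_of_eq ?_) (measure_mono h1)
  rw [vol_af, det_lin3]
  congr 2
  simp only [det3, Matrix.cons_val_zero, Matrix.cons_val_one, Matrix.cons_val]
  norm_num

lemma rho_S1 : rho (cv (fs S1)) < 1 / 4 := by
  rw [rho_cv CP_S1]
  have hD : 0 < (volume D0).toReal := ENNReal.toReal_pos vol_D0_ne_zero vol_D0_ne_top
  have h1 := ENNReal.toReal_mono (ENNReal.mul_ne_top ENNReal.ofReal_ne_top vol_D0_ne_top) vol_ker_S1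
  have h2 := ENNReal.toReal_mono (cv_compact _).measure_lt_top.ne vol_cv_S1
  rw [ENNReal.toReal_mul, ENNReal.toReal_ofReal (by norm_num)] at h1 h2
  rw [div_lt_iff₀ (by linarith)]
  linarith

/-- Every tetrahedron has kernel ratio below one quarter. -/
theorem rho_tet (T : Fin 4 → E) (hT : AffineIndependent ℝ T) :
    rho (convexHull ℝ (Set.range T)) < 1 / 4 := by
  classical
  set B : E →ₗ[ℝ] E := lin3 ((1 / 16 : ℝ) • (T 0 + T 1 - T 2 - T 3))
    ((1 / 16 : ℝ) • (T 0 - T 1 + T 2 - T 3)) ((1 / 16 : ℝ) • (T 0 - T 1 - T 2 + T 3)) with hB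
  have hinj : Function.Injective B := by
    rw [← LinearMap.ker_eq_bot, LinearMap.ker_eq_bot']
    intro x hx
    rw [hB, lin3_apply] at hx
    have := affineIndependent_iff.1 hT Finset.univ
      ![(x 0 + x 1 + x 2) / 16, (x 0 - x 1 - x 2) / 16, (-x 0 + x 1 - x 2) / 16,
        (-x 0 - x 1 + x 2) / 16] (by simp [Fin.sum_univ_four]; ring)
      (by rw [← hx]; simp only [Fin.sum_univ_four, Matrix.cons_val_zero, Matrix.cons_val_one,
        Matrix.cons_val]; module)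
    have h0 := this 0 (Finset.mem_univ _)
    have h1 := this 1 (Finset.mem_univ _)
    have h2 := this 2 (Finset.mem_univ _)
    simp only [Matrix.cons_val_zero, Matrix.cons_val_one, Matrix.cons_val] at h0 h1 h2
    ext i
    fin_cases i <;> simp <;> linarith
  set c : E := (1 / 4 : ℝ) • (T 0 + T 1 + T 2 + T 3) with hc
  have e0 : af B c (cs (4, 4, 4)) = T 0 := by
    rw [af_apply, hB, hc, lin3_apply]; simp [cs]; module
  have e1 : af B c (cs (4, -4, -4)) = T 1 := by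
    rw [af_apply, hB, hc, lin3_apply]; simp [cs]; module
  have e2 : af B c (cs (-4, 4, -4)) = T 2 := by
    rw [af_apply, hB, hc, lin3_apply]; simp [cs]; module
  have e3 : af B c (cs (-4, -4, 4)) = T 3 := by
    rw [af_apply, hB, hc, lin3_apply]; simp [cs]; module
  have he : convexHull ℝ (Set.range T) =
      cv ((fs S1).image (af (LinearEquiv.ofInjectiveEndo B hinj) c)) := by
    rw [cv]
    congr 1
    ext y
    simp only [Set.mem_range, Finset.coe_image, Set.mem_image, Finset.mem_coe, mem_fs]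
    constructor
    · rintro ⟨i, rfl⟩
      fin_cases i
      · exact ⟨_, ⟨_, by decide, rfl⟩, e0⟩
      · exact ⟨_, ⟨_, by decide, rfl⟩, e1⟩
      · exact ⟨_, ⟨_, by decide, rfl⟩, e2⟩
      · exact ⟨_, ⟨_, by decide, rfl⟩, e3⟩
    · rintro ⟨_, ⟨p, hp, rfl⟩, rfl⟩
      simp only [S1, List.mem_cons, List.not_mem_nil, or_false] at hp
      rcases hp with rfl | rfl | rfl | rfl
      · exact ⟨0, e0.symm⟩
      · exact ⟨1, e1.symm⟩
      · exact ⟨2, e2.symm⟩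
      · exact ⟨3, e3.symm⟩
  rw [he, rho_image CP_S1]
  exact rho_S1

end Pool.Agent.Lib.MP_7fdcdd_gt.H77
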