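import Pool.Agent.Lib.MP_7fdcdd_gt.H77.Defs

/-! Finite vertex sets in convex position, their edges and the next vertex set. -/

namespace Pool.Agent.Lib.MP_7fdcdd_gt.H77

open Filter Topology

abbrev L := E →ₗ[ℝ] ℝ

/-- Every point of `V` is exposed in `V`. -/
def CP (V : Finset E) : Prop := ∀ v ∈ V, ∃ l : L, ∀ w ∈ V, w ≠ v → l w < l v

/-- `a` and `b` are the two highest points of `V` for some functional. -/
def Adj (V : Finset E) (a b : E) : Prop :=
  a ∈ V ∧ b ∈ V ∧ a ≠ b ∧ ∃ l : L, ∀ c ∈ V, c ≠ a → c ≠ b → l c < l a ∧ l c < l b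

open Classical in
/-- The midpoints of the edges. -/
noncomputable def nxt (V : Finset E) : Finset E :=
  ((V ×ˢ V).filter (fun p => Adj V p.1 p.2)).image (fun p => midpoint ℝ p.1 p.2)

variable {V : Finset E}

lemma mem_nxt {m : E} : m ∈ nxt V ↔ ∃ a b, Adj V a b ∧ m = midpoint ℝ a b := by
  classical
  unfold nxt
  simp only [Finset.mem_image, Finset.mem_filter, Finset.mem_product, Prod.exists]
  constructor
  · rintro ⟨a, b, ⟨-, h⟩, rfl⟩
    exact ⟨a, b, h, rfl⟩
  · rintro ⟨a, b, h, rfl⟩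
    exact ⟨a, b, ⟨⟨h.1, h.2.1⟩, h⟩, rfl⟩

lemma Adj.mid_mem {a b : E} (h : Adj V a b) : midpoint ℝ a b ∈ nxt V :=
  mem_nxt.2 ⟨a, b, h, rfl⟩

lemma map_mid (l : L) (a b : E) : l (midpoint ℝ a b) = (l a + l b) / 2 := by
  rw [midpoint_eq_smul_add, map_smul, map_add]
  simp only [invOf_eq_inv, smul_eq_mul]
  ring

lemma Adj.symm {a b : E} (h : Adj V a b) : Adj V b a := by
  obtain ⟨ha, hb, hab, l, hl⟩ := h
  exact ⟨hb, ha, hab.symm, l, fun c hc h1 h2 => (hl c hc h2 h1).symm⟩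

/-- Small perturbations keep strict inequalities. -/
lemma perturb (V : Finset E) (l χ : L) : ∃ ε : ℝ, 0 < ε ∧
    ∀ v ∈ V, ∀ w ∈ V, l v < l w → (l + ε • χ) v < (l + ε • χ) w := by
  have h : ∀ᶠ ε in 𝓝 (0 : ℝ), ∀ v ∈ V, ∀ w ∈ V, l v < l w →
      l v + ε * χ v < l w + ε * χ w := by
    rw [Filter.eventually_all_finset]
    intro v _
    rw [Filter.eventually_all_finset]
    intro w _
    by_cases hvw : l v < l w
    · have h1 : ContinuousAt (fun ε : ℝ => l v + ε * χ v) 0 := by fun_prop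
      have h2 : ContinuousAt (fun ε : ℝ => l w + ε * χ w) 0 := by fun_prop
      have := h1.eventually_lt h2 (by simpa using hvw)
      exact this.mono fun ε hε _ => hε
    · exact Filter.Eventually.of_forall fun ε h => absurd h hvw
  have h2 : ∀ᶠ ε in 𝓝[>] (0 : ℝ), 0 < ε := self_mem_nhdsWithin
  obtain ⟨ε, h3, h4⟩ := (h2.and (h.filter_mono nhdsWithin_le_nhds)).exists
  refine ⟨ε, h3, fun v hv w hw hvw => ?_⟩
  simpa using h4 v hv w hw hvw

/-- First tie along a ray. -/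
lemma first_tie {α : Type*} (W : Finset α) (f g : α → ℝ) (hf : ∀ w ∈ W, 0 ≤ f w)
    (hg : ∃ w ∈ W, 0 < g w) :
    ∃ μ : ℝ, 0 ≤ μ ∧ (∃ w ∈ W, 0 < g w ∧ f w = μ * g w) ∧ ∀ w ∈ W, μ * g w ≤ f w := by
  classical
  obtain ⟨w1, hw1, hg1⟩ := hg
  have hne : (W.filter (fun w => 0 < g w)).Nonempty := ⟨w1, Finset.mem_filter.2 ⟨hw1, hg1⟩⟩
  obtain ⟨w0, hw0, hmin⟩ := Finset.exists_min_image _ (fun w => f w / g w) hne
  rw [Finset.mem_filter] at hw0
  have hμ : 0 ≤ f w0 / g w0 := div_nonneg (hf _ hw0.1) hw0.2.le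
  refine ⟨f w0 / g w0, hμ, ⟨w0, hw0.1, hw0.2, by field_simp [hw0.2.ne']⟩, fun w hw => ?_⟩
  by_cases h : 0 < g w
  · have := hmin w (Finset.mem_filter.2 ⟨hw, h⟩)
    rwa [le_div_iff₀ h] at this
  · exact le_trans (mul_nonpos_of_nonneg_of_nonpos hμ (not_lt.1 h)) (hf w hw)

/-- A weakly highest point becomes strictly highest after an order preserving perturbation. -/
lemma top_strict (hV : CP V) {l : L} {s : E} (hs : s ∈ V) (htop : ∀ w ∈ V, l w ≤ l s) :
    ∃ l' : L, (∀ w ∈ V, w ≠ s → l' w < l' s) ∧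
      ∀ v ∈ V, ∀ w ∈ V, l v < l w → l' v < l' w := by
  obtain ⟨χ, hχ⟩ := hV s hs
  obtain ⟨ε, hε, h⟩ := perturb V l χ
  refine ⟨l + ε • χ, fun w hw hws => ?_, h⟩
  have h1 := htop w hw
  have h2 := mul_lt_mul_of_pos_left (hχ w hw hws) hε
  simp only [LinearMap.add_apply, LinearMap.smul_apply, smul_eq_mul]
  linarith

/-- A strictly highest point is adjacent to every weakly second point. -/
lemma adj_of_second (hV : CP V) {l : L} {s t : E} (hs : s ∈ V) (ht : t ∈ V) (hst : t ≠ s)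
    (htop : ∀ w ∈ V, w ≠ s → l w < l s) (hsec : ∀ w ∈ V, w ≠ s → l w ≤ l t) : Adj V s t := by
  obtain ⟨χ, hχ⟩ := hV t ht
  obtain ⟨ε, hε, h⟩ := perturb V l χ
  refine ⟨hs, ht, hst.symm, l + ε • χ, fun c hc h1 h2 => ⟨h c hc s hs (htop c hc h1), ?_⟩⟩
  have h3 := hsec c hc h1
  have h4 := mul_lt_mul_of_pos_left (hχ c hc h2) hε
  simp only [LinearMap.add_apply, LinearMap.smul_apply, smul_eq_mul]
  linarith

/-- A weakly highest point has a neighbour that is weakly second. -/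
lemma exists_adj_second (hV : CP V) {l : L} {s : E} (hs : s ∈ V) (htop : ∀ w ∈ V, l w ≤ l s)
    (hne : ∃ w ∈ V, w ≠ s) : ∃ t, Adj V s t ∧ ∀ w ∈ V, w ≠ s → l w ≤ l t := by
  classical
  obtain ⟨l', h1, h2⟩ := top_strict hV hs htop
  obtain ⟨w0, hw0, hw0s⟩ := hne
  have hne' : (V.erase s).Nonempty := ⟨w0, Finset.mem_erase.2 ⟨hw0s, hw0⟩⟩
  obtain ⟨t, ht, hmax⟩ := Finset.exists_max_image _ l' hne'
  rw [Finset.mem_erase] at ht
  have hsec : ∀ w ∈ V, w ≠ s → l' w ≤ l' t := fun w hw hws =>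
    hmax w (Finset.mem_erase.2 ⟨hws, hw⟩)
  refine ⟨t, adj_of_second hV hs ht.2 ht.1 h1 hsec, fun w hw hws => ?_⟩
  by_contra hcon
  exact absurd (h2 t ht.2 w hw (not_le.1 hcon)) (not_lt.2 (hsec w hw hws))

/-- For every functional there is an edge made of a highest and a second point. -/
lemma exists_top_edge (hV : CP V) (l : L) (h2 : ∃ a ∈ V, ∃ b ∈ V, a ≠ b) :
    ∃ s t, Adj V s t ∧ (∀ w ∈ V, l w ≤ l s) ∧ ∀ w ∈ V, w ≠ s → l w ≤ l t := by
  obtain ⟨a, ha, b, hb, hab⟩ := h2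
  obtain ⟨s, hs, hmax⟩ := Finset.exists_max_image V l ⟨a, ha⟩
  have hne : ∃ w ∈ V, w ≠ s := by
    by_cases h : a = s
    · exact ⟨b, hb, fun h' => hab (h.trans h'.symm)⟩
    · exact ⟨a, ha, h⟩
  obtain ⟨t, h1, h2⟩ := exists_adj_second hV hs hmax hne
  exact ⟨s, t, h1, hmax, h2⟩

lemma pair_le_of_top {l : L} {s t : E} (h1 : ∀ w ∈ V, l w ≤ l s)
    (h2 : ∀ w ∈ V, w ≠ s → l w ≤ l t) {a b : E} (ha : a ∈ V) (hb : b ∈ V) (hab : a ≠ b) :
    l a + l b ≤ l s + l t := by
  by_cases h : a = s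
  · have := h2 b hb (fun h' => hab (h.trans h'.symm))
    rw [h]; linarith
  · have := h2 a ha h
    have := h1 b hb
    linarith

/-- If a point of the next set is weakly highest, its value bounds all pair averages. -/
lemma pair_le_of_nxt_top (hV : CP V) {l : L} {p : E} (hp : ∀ q ∈ nxt V, l q ≤ l p)
    {a b : E} (ha : a ∈ V) (hb : b ∈ V) (hab : a ≠ b) : l a + l b ≤ 2 * l p := by
  obtain ⟨s, t, hst, h1, h2⟩ := exists_top_edge hV l ⟨a, ha, b, hb, hab⟩
  have h3 := pair_le_of_top h1 h2 ha hb hab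
  have h4 := hp _ hst.mid_mem
  rw [map_mid] at h4
  linarith

/-- The endpoints of an edge are determined by its midpoint. -/
lemma Adj.mid_unique {a b c d : E} (h : Adj V a b) (hc : c ∈ V) (hd : d ∈ V) (hcd : c ≠ d)
    (he : midpoint ℝ c d = midpoint ℝ a b) : (c = a ∧ d = b) ∨ (c = b ∧ d = a) := by
  obtain ⟨ha, hb, hab, l, hl⟩ := h
  have h1 := congrArg l he
  rw [map_mid, map_mid] at h1
  by_cases hca : c = a
  · subst hca
    by_cases hdb : d = b
    · exact Or.inl ⟨rfl, hdb⟩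
    · have := hl d hd hcd.symm hdb
      linarith [this.2]
  · by_cases hcb : c = b
    · subst hcb
      by_cases hda : d = a
      · exact Or.inr ⟨rfl, hda⟩
      · have := hl d hd hda hcd.symm
        linarith [this.1]
    · have h2 := hl c hc hca hcb
      by_cases hda : d = a
      · subst hda; linarith [h2.2]
      · by_cases hdb : d = b
        · subst hdb; linarith [h2.1]
        · have := hl d hd hda hdb
          linarith [h2.1, this.2]

lemma CP.nxt (V : Finset E) : CP (nxt V) := by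
  intro p hp
  obtain ⟨a, b, h, rfl⟩ := mem_nxt.1 hp
  obtain ⟨ha, hb, hab, l, hl⟩ := h
  refine ⟨l, fun q hq hne => ?_⟩
  obtain ⟨c, d, ⟨hc, hd, hcd, -⟩, rfl⟩ := mem_nxt.1 hq
  rw [map_mid, map_mid]
  by_cases hca : c = a
  · subst hca
    have hdb : d ≠ b := fun h => hne (by rw [h])
    have := hl d hd hcd.symm hdb
    linarith [this.2]
  · by_cases hcb : c = b
    · subst hcb
      have hda : d ≠ a := fun h => hne (by rw [h, midpoint_comm])
      have := hl d hd hda hcd.symm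
      linarith [this.1]
    · have h2 := hl c hc hca hcb
      by_cases hda : d = a
      · subst hda; linarith [h2.2]
      · by_cases hdb : d = b
        · subst hdb; linarith [h2.1]
        · have := hl d hd hda hdb
          linarith [h2.1, this.2]

/-- An edge is exposed by a functional with equal values at both ends. -/
lemma Adj.strong (hV : CP V) {a b : E} (h : Adj V a b) :
    ∃ l : L, l a = l b ∧ ∀ c ∈ V, c ≠ a → c ≠ b → l c < l a := by
  have key : ∀ a b : E, a ∈ V → b ∈ V → a ≠ b → ∀ l : L,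
      (∀ c ∈ V, c ≠ a → c ≠ b → l c < l a ∧ l c < l b) → l b ≤ l a →
      ∃ l : L, l a = l b ∧ ∀ c ∈ V, c ≠ a → c ≠ b → l c < l a := by
    intro a b ha hb hab l hl hle
    obtain ⟨χ, hχ⟩ := hV b hb
    have h1 : 0 < χ b - χ a := sub_pos.2 (hχ a ha hab)
    set μ := (l a - l b) / (χ b - χ a) with hμ
    have hμ0 : 0 ≤ μ := div_nonneg (sub_nonneg.2 hle) h1.le
    have hμ1 : μ * (χ b - χ a) = l a - l b := by rw [hμ]; field_simp
    refine ⟨l + μ • χ, ?_, fun c hc h2 h3 => ?_⟩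
    · simp only [LinearMap.add_apply, LinearMap.smul_apply, smul_eq_mul]
      linarith
    · simp only [LinearMap.add_apply, LinearMap.smul_apply, smul_eq_mul]
      have h4 := (hl c hc h2 h3).2
      have h5 := mul_le_mul_of_nonneg_left (hχ c hc h3).le hμ0
      linarith
  obtain ⟨ha, hb, hab, l, hl⟩ := h
  rcases le_total (l b) (l a) with h1 | h1
  · exact key a b ha hb hab l hl h1
  · obtain ⟨l', h2, h3⟩ := key b a hb ha hab.symm l (fun c hc h1 h2 => (hl c hc h2 h1).symm) h1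
    exact ⟨l', h2.symm, fun c hc h4 h5 => h2 ▸ h3 c hc h5 h4⟩

/-- If the midpoint of an edge is strictly highest, its ends are strictly the two highest. -/
lemma Adj.top_two (hV : CP V) {a b : E} (h : Adj V a b) {l : L}
    (hp : ∀ q ∈ nxt V, q ≠ midpoint ℝ a b → l q < l (midpoint ℝ a b)) :
    ∀ c ∈ V, c ≠ a → c ≠ b → l c < l a ∧ l c < l b := by
  have key : ∀ a b : E, Adj V a b →
      (∀ q ∈ nxt V, q ≠ midpoint ℝ a b → l q < l (midpoint ℝ a b)) →
      ∀ c ∈ V, c ≠ a → c ≠ b → l c < l b := by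
    intro a b h hp c hc hca hcb
    have hw : ∀ q ∈ nxt V, l q ≤ l (midpoint ℝ a b) := fun q hq => by
      by_cases h : q = midpoint ℝ a b
      · rw [h]
      · exact (hp q hq h).le
    have hpair : ∀ x ∈ V, ∀ y ∈ V, x ≠ y → l x + l y ≤ l a + l b := fun x hx y hy hxy => by
      have := pair_le_of_nxt_top hV hw hx hy hxy
      rw [map_mid] at this
      linarith
    by_contra hcon
    have h1 : l b ≤ l c := not_lt.1 hcon
    have h2 := hpair c hc a h.1 hca
    have h3 := hpair c hc b h.2.1 hcb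
    have hsec : ∀ w ∈ V, w ≠ a → l w ≤ l c := fun w hw hwa => by
      have := hpair w hw a h.1 hwa
      linarith
    rcases lt_or_eq_of_le (show l c ≤ l a by linarith) with h4 | h4
    · have hac : Adj V a c := adj_of_second hV h.1 hc hca
        (fun w hw hwa => lt_of_le_of_lt (hsec w hw hwa) h4) hsec
      have hne : midpoint ℝ a c ≠ midpoint ℝ a b := fun he => by
        rcases h.mid_unique h.1 hc hca.symm he with h5 | h5
        · exact hcb h5.2
        · exact hca h5.2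
      have := hp _ hac.mid_mem hne
      rw [map_mid, map_mid] at this
      linarith
    · have htop : ∀ w ∈ V, l w ≤ l c := fun w hw => by
        by_cases hwa : w = a
        · rw [hwa, h4]
        · exact hsec w hw hwa
      obtain ⟨t, hct, ht⟩ := exists_adj_second hV hc htop ⟨a, h.1, hca.symm⟩
      have h5 := ht a h.1 hca.symm
      have hne : midpoint ℝ c t ≠ midpoint ℝ a b := fun he => by
        rcases h.mid_unique hc hct.2.1 hct.2.2.1 he with h5 | h5
        · exact hca h5.1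
        · exact hcb h5.1
      have := hp _ hct.mid_mem hne
      rw [map_mid, map_mid] at this
      linarith
  intro c hc hca hcb
  refine ⟨key b a h.symm ?_ c hc hcb hca, key a b h hp c hc hca hcb⟩
  rw [midpoint_comm]; exact hp

/-- A third highest point is adjacent to one of the two highest. -/
lemma exists_third (hV : CP V) {l : L} {a b : E} (ha : a ∈ V) (hb : b ∈ V) (hab : a ≠ b)
    (hl : ∀ c ∈ V, c ≠ a → c ≠ b → l c < l a ∧ l c < l b) (h3 : ∃ c ∈ V, c ≠ a ∧ c ≠ b) :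
    ∃ r, r ≠ a ∧ r ≠ b ∧ (Adj V a r ∨ Adj V b r) ∧ ∀ c ∈ V, c ≠ a → c ≠ b → l c ≤ l r := by
  classical
  obtain ⟨c0, hc0, hc0a, hc0b⟩ := h3
  have hne : ((V.erase a).erase b).Nonempty :=
    ⟨c0, Finset.mem_erase.2 ⟨hc0b, Finset.mem_erase.2 ⟨hc0a, hc0⟩⟩⟩
  obtain ⟨r, hr, hmax⟩ := Finset.exists_max_image _ l hne
  rw [Finset.mem_erase, Finset.mem_erase] at hr
  obtain ⟨hrb, hra, hr⟩ := hr
  have hmax' : ∀ c ∈ V, c ≠ a → c ≠ b → l c ≤ l r := fun c hc h1 h2 =>
    hmax c (Finset.mem_erase.2 ⟨h2, Finset.mem_erase.2 ⟨h1, hc⟩⟩)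
  refine ⟨r, hra, hrb, ?_, hmax'⟩
  obtain ⟨χ, hχ⟩ := hV r hr
  have hχa := hχ a ha hra.symm
  have hχb := hχ b hb hrb.symm
  have hla := (hl r hr hra hrb).1
  have hlb := (hl r hr hra hrb).2
  -- the symmetric core
  have key : ∀ a b : E, a ∈ V → b ∈ V → a ≠ b → r ≠ a → r ≠ b → ∀ μ : ℝ, 0 < μ →
      (∀ c ∈ V, c ≠ a → c ≠ b → l c ≤ l r) →
      l b + μ * χ b = l r + μ * χ r → l r + μ * χ r ≤ l a + μ * χ a → Adj V a r := by
    intro a b ha hb hab hra hrb μ hμ hmax' h1 h2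
    obtain ⟨ω, hω⟩ := hV b hb
    obtain ⟨ε, hε, h⟩ := perturb V (l + μ • χ) (-ω)
    have hlow : ∀ c ∈ V, c ≠ a → c ≠ b → c ≠ r → (l + μ • χ) c < (l + μ • χ) r := by
      intro c hc h3 h4 h5
      have h6 := hmax' c hc h3 h4
      have h7 := mul_lt_mul_of_pos_left (hχ c hc h5) hμ
      simp only [LinearMap.add_apply, LinearMap.smul_apply, smul_eq_mul]
      linarith
    refine ⟨ha, hr, hra.symm, l + μ • χ + ε • (-ω), fun c hc h3 h4 => ?_⟩
    by_cases hcb : c = b
    · subst hcb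
      have h5 := mul_lt_mul_of_pos_left (hω a ha hab) hε
      have h6 := mul_lt_mul_of_pos_left (hω r hr hrb) hε
      simp only [LinearMap.add_apply, LinearMap.smul_apply, smul_eq_mul, LinearMap.neg_apply]
      constructor <;> linarith
    · have h5 := hlow c hc h3 hcb h4
      refine ⟨h c hc a ha (lt_of_lt_of_le h5 ?_), h c hc r hr h5⟩
      simpa using h2
  set μa := (l a - l r) / (χ r - χ a) with hμa
  set μb := (l b - l r) / (χ r - χ b) with hμb
  have ea : μa * (χ r - χ a) = l a - l r := by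
    rw [hμa]; field_simp [(sub_pos.2 hχa).ne']
  have eb : μb * (χ r - χ b) = l b - l r := by
    rw [hμb]; field_simp [(sub_pos.2 hχb).ne']
  have pa : 0 < μa := div_pos (sub_pos.2 hla) (sub_pos.2 hχa)
  have pb : 0 < μb := div_pos (sub_pos.2 hlb) (sub_pos.2 hχb)
  rcases le_total μb μa with h | h
  · left
    refine key a b ha hb hab hra hrb μb pb hmax' (by linarith) ?_
    have := mul_le_mul_of_nonneg_right h (sub_pos.2 hχa).le
    linarith
  · right
    refine key b a hb ha hab.symm hrb hra μa pa (fun c hc h1 h2 => hmax' c hc h2 h1)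
      (by linarith) ?_
    have := mul_le_mul_of_nonneg_right h (sub_pos.2 hχb).le
    linarith

/-- Adjacent points of the next set share a parent. -/
lemma share_parent (hV : CP V) {a b q : E} (h : Adj V a b)
    (hq : Adj (nxt V) (midpoint ℝ a b) q) :
    ∃ c, c ≠ a ∧ c ≠ b ∧ ((Adj V a c ∧ q = midpoint ℝ a c) ∨ (Adj V b c ∧ q = midpoint ℝ b c)) := by
  obtain ⟨l0, e0, h0⟩ := hq.strong (CP.nxt V)
  have hw : ∀ w ∈ nxt V, l0 w ≤ l0 (midpoint ℝ a b) := fun w hw => by
    by_cases h1 : w = midpoint ℝ a b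
    · rw [h1]
    · by_cases h2 : w = q
      · rw [h2, e0]
      · exact (h0 w hw h1 h2).le
  obtain ⟨l, h1, h2⟩ := top_strict (CP.nxt V) hq.1 hw
  have hsec : ∀ w ∈ nxt V, w ≠ midpoint ℝ a b → w ≠ q → l w < l q := fun w hw h3 h4 =>
    h2 w hw q hq.2.1 (e0 ▸ h0 w hw h3 h4)
  have htwo := h.top_two hV h1
  obtain ⟨c, d, hcd, rfl⟩ := mem_nxt.1 hq.2.1
  have hne := hq.2.2.1
  by_cases hca : c = a
  · subst hca
    exact ⟨d, hcd.2.2.1.symm, fun h => hne (by rw [h]), Or.inl ⟨hcd, rfl⟩⟩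
  by_cases hcb : c = b
  · subst hcb
    exact ⟨d, fun h => hne (by rw [h, midpoint_comm]), hcd.2.2.1.symm, Or.inr ⟨hcd, rfl⟩⟩
  by_cases hda : d = a
  · subst hda
    exact ⟨c, hca, hcb, Or.inl ⟨hcd.symm, midpoint_comm _ _⟩⟩
  by_cases hdb : d = b
  · subst hdb
    exact ⟨c, hca, hcb, Or.inr ⟨hcd.symm, midpoint_comm _ _⟩⟩
  exfalso
  obtain ⟨r, hra, hrb, hr, hmax⟩ := exists_third hV h.1 h.2.1 h.2.2.1 htwo ⟨c, hcd.1, hca, hcb⟩
  have h3 := hmax c hcd.1 hca hcb
  have h4 := htwo d hcd.2.1 hda hdb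
  have key : ∀ x, Adj V x r → l d < l x → False := by
    intro x hx hlt
    have hne1 : midpoint ℝ x r ≠ midpoint ℝ a b := fun he => by
      rcases h.mid_unique hx.1 hx.2.1 hx.2.2.1 he with h5 | h5
      · exact hrb h5.2
      · exact hra h5.2
    by_cases he : midpoint ℝ x r = midpoint ℝ c d
    · have := congrArg l he
      rw [map_mid, map_mid] at this
      linarith
    · have := hsec _ hx.mid_mem hne1 he
      rw [map_mid, map_mid] at this
      linarith
  rcases hr with hr | hr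
  · exact key a hr h4.1
  · exact key b hr h4.2

end Pool.Agent.Lib.MP_7fdcdd_gt.H77
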