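import Mathlib

/-! Definitions for the midpoint iteration of a convex polyhedron in three-space. -/

namespace Pool.Agent.Lib.MP_7fdcdd_gt.H77

open MeasureTheory

/-- Three-space. -/
abbrev E := Fin 3 → ℝ

/-- The segment from `a` to `b` is an edge (a one-dimensional face) of `X`. -/
def IsEdge (X : Set E) (a b : E) : Prop := a ≠ b ∧ IsExposed ℝ X (segment ℝ a b)

/-- The convex hull of the midpoints of all edges of `X`. -/
def mid (X : Set E) : Set E := convexHull ℝ {m | ∃ a b, IsEdge X a b ∧ m = midpoint ℝ a b}

/-- The kernel: the intersection of all iterates. -/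
def kernel (X : Set E) : Set E := ⋂ k : ℕ, mid^[k] X

/-- The volume ratio of the kernel. -/
noncomputable def rho (X : Set E) : ℝ := (volume (kernel X)).toReal / (volume X).toReal

end Pool.Agent.Lib.MP_7fdcdd_gt.H77
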