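import Pool.Agent.Lib.MP_7fdcdd_gt.H77.Simplex

/-! The flag bound for the volume of a convex set that touches every facet. -/

namespace Pool.Agent.Lib.MP_7fdcdd_gt.H77

open MeasureTheory

variable {V : Finset E}

/-- The origin is an interior point. -/
def Int0 (V : Finset E) : Prop := ∀ ω : L, ω ≠ 0 → ∃ v ∈ V, 0 < ω v

/-- Facet functionals, normalised to the value one. -/
def Fac (V : Finset E) : Set L :=
  {η | (∀ v ∈ V, η v ≤ 1) ∧ ∀ ω : L, (∀ v ∈ V, η v = 1 → ω v = 0) → ω = 0}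

lemma Fac_finite (V : Finset E) : (Fac V).Finite := by
  classical
  refine Set.Finite.of_finite_image (f := fun η : L => V.filter (fun v => η v = 1))
    (V.powerset.finite_toSet.subset ?_) ?_
  · rintro _ ⟨η, -, rfl⟩
    exact Finset.mem_coe.2 (Finset.mem_powerset.2 (Finset.filter_subset _ _))
  · intro η hη η' _ he
    have he' : V.filter (fun v => η v = 1) = V.filter (fun v => η' v = 1) := he
    refine sub_eq_zero.1 (hη.2 _ fun v hv h1 => ?_)
    have : v ∈ V.filter (fun v => η' v = 1) := he' ▸ Finset.mem_filter.2 ⟨hv, h1⟩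
    simp [h1, (Finset.mem_filter.1 this).2]

lemma Fac_top3 {η : L} (h : η ∈ Fac V) : Top3 V η 1 := ⟨h.1, three_of_span h.2⟩

lemma facet_above (hI : Int0 V) {l : L} {c : ℝ} (hc : 0 < c) (hl : ∀ v ∈ V, l v ≤ c) (x : E) :
    ∃ η ∈ Fac V, c⁻¹ * l x ≤ η x := by
  obtain ⟨η, h1, h2, h3⟩ := grow V 1 x (fun ω hω => by
      rcases le_total 0 (ω x) with h | h
      · obtain ⟨v, hv, hp⟩ := hI ω hω
        exact Or.inl ⟨v, hv, hp, h⟩
      · obtain ⟨v, hv, hp⟩ := hI (-ω) (neg_ne_zero.2 hω)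
        exact Or.inr ⟨v, hv, by simpa using hp, h⟩)
    (c⁻¹ • l) (fun v hv => by
      rw [LinearMap.smul_apply, smul_eq_mul, inv_mul_le_iff₀ hc, mul_one]
      exact hl v hv)
  exact ⟨η, ⟨h1, h3⟩, by simpa using h2⟩

lemma Int0.nonempty (hI : Int0 V) : V.Nonempty := by
  obtain ⟨ω, h1, -⟩ := exists_vanish ∅ (by simp)
  obtain ⟨v, hv, -⟩ := hI ω h1
  exact ⟨v, hv⟩

lemma mem_cv_of_facets (hI : Int0 V) {y : E} (h : ∀ η ∈ Fac V, η y ≤ 1) : y ∈ cv V := by
  by_contra hcon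
  obtain ⟨l, c, h1, h2⟩ := separate (cv_convex V) (cv_compact V).isClosed hcon
  have hl : l ≠ 0 := by
    rintro rfl
    obtain ⟨v, hv⟩ := hI.nonempty
    have := h1 v (mem_cv_of_mem hv)
    simp at this h2
    linarith
  obtain ⟨v, hv, hp⟩ := hI l hl
  have hc : 0 < c := hp.trans (h1 v (mem_cv_of_mem hv))
  obtain ⟨η, hη, h3⟩ := facet_above hI hc (fun v hv => (h1 v (mem_cv_of_mem hv)).le) y
  have h4 := h η hη
  have h5 : 1 < c⁻¹ * l y := by rw [lt_inv_mul_iff₀ hc, mul_one]; exact h2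
  linarith

lemma exists_facet_pos (hI : Int0 V) {x : E} (hx : x ≠ 0) : ∃ η ∈ Fac V, 0 < η x := by
  obtain ⟨l, c, h1, h2⟩ := separate (convex_singleton (0 : E)) isClosed_singleton
    (show x ∉ ({0} : Set E) from hx)
  have h3 : 0 < l x := by
    have := h1 0 rfl
    rw [map_zero] at this
    linarith
  have hl : l ≠ 0 := by
    rintro rfl
    simp at h3
  obtain ⟨v, hv, hp⟩ := hI l hl
  obtain ⟨s, hs, hmax⟩ := Finset.exists_max_image V l ⟨v, hv⟩
  have hc : 0 < l s := hp.trans_le (hmax v hv)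
  obtain ⟨η, hη, h4⟩ := facet_above hI hc hmax x
  exact ⟨η, hη, lt_of_lt_of_le (mul_pos (inv_pos.2 hc) h3) h4⟩

lemma exists_edge_in_facet (hV : CP V) {η : L} (hη : η ∈ Fac V) {a : E} (ha : a ∈ V)
    (ea : η a = 1) : ∃ w, Adj V a w ∧ η w = 1 := by
  obtain ⟨-, p, hp, q, hq, -, -, hpq, -, -, ep, eq, -⟩ := Fac_top3 hη
  obtain ⟨r, hr, hra, er⟩ : ∃ r ∈ V, r ≠ a ∧ η r = 1 := by
    by_cases h : p = a
    · exact ⟨q, hq, fun h' => hpq (h.trans h'.symm), eq⟩
    · exact ⟨p, hp, h, ep⟩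
  obtain ⟨t, ht, hsec⟩ := exists_adj_second hV (l := η) ha (fun w hw => ea ▸ hη.1 w hw)
    ⟨r, hr, hra⟩
  exact ⟨t, ht, le_antisymm (hη.1 t ht.2.1) (er ▸ hsec r hr hra)⟩

lemma edge_of_two_facets (hV : CP V) {η η1 : L} (hη : η ∈ Fac V) (h1 : ∀ v ∈ V, η1 v ≤ 1)
    (hne : η ≠ η1) {z : E} (hz : z ∈ cv V) (e : η z = 1) (e1 : η1 z = 1) :
    ∃ v w, Adj V v w ∧ η v = 1 ∧ η w = 1 ∧ z ∈ segment ℝ v w := by
  classical
  set T := V.filter (fun v => η v = 1 ∧ η1 v = 1) with hT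
  have hle : ∀ v ∈ V, (η + η1) v ≤ 2 := fun v hv => by
    have := hη.1 v hv
    have := h1 v hv
    rw [LinearMap.add_apply]; linarith
  have hTm : ∀ v ∈ V, (η + η1) v = 2 → v ∈ T := fun v hv he => by
    have := hη.1 v hv
    have := h1 v hv
    rw [LinearMap.add_apply] at he
    exact Finset.mem_filter.2 ⟨hv, by linarith, by linarith⟩
  have hzT : z ∈ cv T := mem_cv_face hle hz (by rw [LinearMap.add_apply]; linarith) hTm
  by_cases hcard : 2 < T.card
  · exfalso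
    obtain ⟨p, q, r, hp, hq, hr, n1, n2, n3⟩ := Finset.two_lt_card_iff.1 hcard
    rw [hT, Finset.mem_filter] at hp hq hr
    exact hne (sub_eq_zero.1 (zero_of_three hV hp.1 hq.1 hr.1 n1 n2 n3 hp.2.1 hq.2.1 hr.2.1
      (by simp [hp.2.1, hp.2.2]) (by simp [hq.2.1, hq.2.2]) (by simp [hr.2.1, hr.2.2])))
  have : T.card = 0 ∨ T.card = 1 ∨ T.card = 2 := by omega
  rcases this with h | h | h
  · rw [Finset.card_eq_zero] at h
    rw [h] at hzT
    simp [cv] at hzT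
  · obtain ⟨a, ha⟩ := Finset.card_eq_one.1 h
    have haT : a ∈ T := ha ▸ Finset.mem_singleton_self a
    rw [hT, Finset.mem_filter] at haT
    rw [ha] at hzT
    have hza : z = a := by simpa [cv] using hzT
    obtain ⟨w, hw, ew⟩ := exists_edge_in_facet hV hη haT.1 haT.2.1
    exact ⟨a, w, hw, haT.2.1, ew, hza ▸ left_mem_segment ℝ _ _⟩
  · obtain ⟨a, b, hab, hT2⟩ := Finset.card_eq_two.1 h
    have haT : a ∈ T := hT2 ▸ (by simp)
    have hbT : b ∈ T := hT2 ▸ (by simp)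
    rw [hT, Finset.mem_filter] at haT hbT
    rw [hT2, cv_pair] at hzT
    refine ⟨a, b, ⟨haT.1, hbT.1, hab, η + η1, fun c hc hca hcb => ?_⟩, haT.2.1, hbT.2.1, hzT⟩
    have h2 : (η + η1) c < 2 := lt_of_le_of_ne (hle c hc) fun he => by
      have := hTm c hc he
      rw [hT2] at this
      simp [hca, hcb] at this
    simp only [LinearMap.add_apply] at h2 ⊢
    constructor <;> linarith [haT.2.1, haT.2.2, hbT.2.1, hbT.2.2]

/-- The simplices over the origin, a facet point and an edge of that facet cover the hull. -/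
lemma flag_cover (hV : CP V) (hI : Int0 V) (k : L → E) (hk : ∀ η ∈ Fac V, k η ∈ cv V ∧ η (k η) = 1)
    {x : E} (hx : x ∈ cv V) (hx0 : x ≠ 0) :
    ∃ η ∈ Fac V, ∃ v w, Adj V v w ∧ η v = 1 ∧ η w = 1 ∧ x ∈ lin3 (k η) v w '' D0 := by
  classical
  obtain ⟨η0, hη0, hp0⟩ := exists_facet_pos hI hx0
  obtain ⟨η, hη, hmax⟩ := Finset.exists_max_image (Fac_finite V).toFinset (fun η => η x)
    ⟨η0, (Fac_finite V).mem_toFinset.2 hη0⟩
  rw [Set.Finite.mem_toFinset] at hη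
  have hmax' : ∀ η' ∈ Fac V, η' x ≤ η x := fun η' h => hmax η' ((Fac_finite V).mem_toFinset.2 h)
  set t := η x with ht
  have ht0 : 0 < t := hp0.trans_le (hmax' η0 hη0)
  have ht1 : t ≤ 1 := le_of_mem_cv hη.1 hx
  set y := t⁻¹ • x with hy
  have hxy : x = t • y := by rw [hy, smul_smul, mul_inv_cancel₀ ht0.ne', one_smul]
  have hyle : ∀ η' ∈ Fac V, η' y ≤ 1 := fun η' h => by
    rw [hy, map_smul, smul_eq_mul, inv_mul_le_iff₀ ht0, mul_one]
    exact hmax' η' h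
  have hy1 : η y = 1 := by rw [hy, map_smul, smul_eq_mul, ← ht, inv_mul_cancel₀ ht0.ne']
  refine ⟨η, hη, ?_⟩
  obtain ⟨hk1, hk2⟩ := hk η hη
  by_cases hyk : y = k η
  · obtain ⟨-, a, ha, -, -, -, -, -, -, -, ea, -⟩ := Fac_top3 hη
    obtain ⟨w, hw, ew⟩ := exists_edge_in_facet hV hη ha ea
    refine ⟨a, w, hw, ea, ew, ![t, 0, 0], ⟨ht0.le, le_rfl, le_rfl, by simpa using ht1⟩, ?_⟩
    rw [lin3_apply, hxy, hyk]
    simp
  obtain ⟨η2, hη2, hp2⟩ := exists_facet_pos hI (sub_ne_zero.2 hyk)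
  obtain ⟨μ, hμ, ⟨η1, hη1, hg, he⟩, hall⟩ := first_tie (Fac_finite V).toFinset
    (fun η' => 1 - η' (k η)) (fun η' => η' (y - k η))
    (fun η' h => sub_nonneg.2 (le_of_mem_cv ((Fac_finite V).mem_toFinset.1 h).1 hk1))
    ⟨η2, (Fac_finite V).mem_toFinset.2 hη2, hp2⟩
  rw [Set.Finite.mem_toFinset] at hη1
  have hd : η (y - k η) = 0 := by rw [map_sub, hy1, hk2, sub_self]
  have hμ1 : 1 ≤ μ := by
    have h1 := hyle η1 hη1
    have h2 : η1 (y - k η) ≤ μ * η1 (y - k η) := by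
      rw [← he, map_sub]; linarith
    by_contra hcon
    have := mul_lt_mul_of_pos_right (not_le.1 hcon) hg
    linarith
  have hμ0 : 0 < μ := by linarith
  set z := k η + μ • (y - k η) with hz
  have hzV : z ∈ cv V := mem_cv_of_facets hI fun η' h => by
    have := hall η' ((Fac_finite V).mem_toFinset.2 h)
    rw [hz, map_add, map_smul, smul_eq_mul]
    linarith
  obtain ⟨v, w, hvw, ev, ew, s1, s2, hs1, hs2, hs, hzs⟩ := edge_of_two_facets hV hη hη1.1
    (fun h => by rw [← h, hd] at hg; exact lt_irrefl _ hg) hzV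
    (by rw [hz, map_add, map_smul, hd, hk2]; simp)
    (by rw [hz, map_add, map_smul, smul_eq_mul]; linarith)
  have hμi : μ⁻¹ ≤ 1 := inv_le_one_of_one_le₀ hμ1
  have hμi0 : 0 < μ⁻¹ := inv_pos.2 hμ0
  refine ⟨v, w, hvw, ev, ew, ![t * (1 - μ⁻¹), t * μ⁻¹ * s1, t * μ⁻¹ * s2],
    ⟨mul_nonneg ht0.le (sub_nonneg.2 hμi), mul_nonneg (mul_pos ht0 hμi0).le hs1,
      mul_nonneg (mul_pos ht0 hμi0).le hs2, ?_⟩, ?_⟩
  · have : t * (1 - μ⁻¹) + t * μ⁻¹ * s1 + t * μ⁻¹ * s2 = t := by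
      have : s2 = 1 - s1 := by linarith
      rw [this]; ring
    simpa [this] using ht1
  · have e1 : y = (1 - μ⁻¹) • k η + μ⁻¹ • z := by
      rw [hz, smul_add, smul_smul, inv_mul_cancel₀ hμ0.ne']
      module
    rw [lin3_apply, hxy, e1, ← hzs]
    simp only [Matrix.cons_val_zero, Matrix.cons_val_one, Matrix.cons_val]
    module

/-- The open cone over three vectors. -/
def Cn (p q r : E) : Set E :=
  {x | ∃ α β γ : ℝ, 0 < α ∧ 0 < β ∧ 0 < γ ∧ x = α • p + β • q + γ • r}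

lemma cone_unique (hV : CP V) (k : L → E) (hk : ∀ η ∈ Fac V, k η ∈ cv V ∧ η (k η) = 1)
    {η η' : L} {v w v' w' : E} (hη : η ∈ Fac V) (hη' : η' ∈ Fac V) (h : Adj V v w)
    (h' : Adj V v' w') (ev : η v = 1) (ew : η w = 1) (ev' : η' v' = 1) (ew' : η' w' = 1)
    (hd : 0 < det3 (k η) v w) (hd' : 0 < det3 (k η') v' w') {x : E}
    (hx : x ∈ Cn (k η) v w) (hx' : x ∈ Cn (k η') v' w') : η = η' ∧ v = v' ∧ w = w' := by
  classical
  obtain ⟨α, β, γ, hα, hβ, hγ, e⟩ := hx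
  obtain ⟨α', β', γ', hα', hβ', hγ', e'⟩ := hx'
  have hk1 := hk η hη
  have hk1' := hk η' hη'
  have a1 := le_of_mem_cv hη'.1 hk1.1
  have a2 := hη'.1 v h.1
  have a3 := hη'.1 w h.2.1
  have b1 := le_of_mem_cv hη.1 hk1'.1
  have b2 := hη.1 v' h'.1
  have b3 := hη.1 w' h'.2.1
  have c1 := congrArg η e
  have c2 := congrArg η e'
  have c3 := congrArg η' e
  have c4 := congrArg η' e'
  simp only [map_add, map_smul, smul_eq_mul, hk1.2, hk1'.2, ev, ew, ev', ew', mul_one]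
    at c1 c2 c3 c4
  have d1 := mul_nonneg hα.le (sub_nonneg.2 a1)
  have d2 := mul_nonneg hβ.le (sub_nonneg.2 a2)
  have d3 := mul_nonneg hγ.le (sub_nonneg.2 a3)
  have d4 := mul_nonneg hα'.le (sub_nonneg.2 b1)
  have d5 := mul_nonneg hβ'.le (sub_nonneg.2 b2)
  have d6 := mul_nonneg hγ'.le (sub_nonneg.2 b3)
  have f1 : η' (k η) = 1 := by
    have := (mul_eq_zero.1 (show α * (1 - η' (k η)) = 0 by linarith)).resolve_left hα.ne'
    linarith
  have f2 : η' v = 1 := by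
    have := (mul_eq_zero.1 (show β * (1 - η' v) = 0 by linarith)).resolve_left hβ.ne'
    linarith
  have f3 : η' w = 1 := by
    have := (mul_eq_zero.1 (show γ * (1 - η' w) = 0 by linarith)).resolve_left hγ.ne'
    linarith
  have hηη : η = η' := sub_eq_zero.1 (zero_of_det hd.ne' (by simp [hk1.2, f1]) (by simp [ev, f2])
    (by simp [ew, f3]))
  subst hηη
  have hsum : α + β + γ = α' + β' + γ' := by linarith
  -- the functional of an edge is smaller at the facet point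
  have key : ∀ v w : E, Adj V v w → 0 < det3 (k η) v w →
      ∃ l : L, l v = l w ∧ (∀ c ∈ V, c ≠ v → c ≠ w → l c < l v) ∧ (∀ c ∈ V, l c ≤ l v) ∧
        l (k η) < l v := by
    intro v w h hd
    obtain ⟨l, h1, h2⟩ := h.strong hV
    have h3 : ∀ c ∈ V, l c ≤ l v := fun c hc => by
      by_cases h3 : c = v
      · rw [h3]
      · by_cases h4 : c = w
        · rw [h4, h1]
        · exact (h2 c hc h3 h4).le
    refine ⟨l, h1, h2, h3, lt_of_not_ge fun hcon => ?_⟩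
    have h4 : k η ∈ cv {v, w} := mem_cv_face h3 hk1.1 hcon fun c hc he => by
      by_contra hc'
      simp only [Finset.mem_insert, Finset.mem_singleton, not_or] at hc'
      exact absurd he (h2 c hc hc'.1 hc'.2).ne
    rw [cv_pair] at h4
    obtain ⟨s1, s2, -, -, -, h5⟩ := h4
    rw [← h5] at hd
    have : det3 (s1 • v + s2 • w) v w = 0 := by
      simp only [det3, Pi.add_apply, Pi.smul_apply, smul_eq_mul]; ring
    linarith
  obtain ⟨l, l1, l2, l3, l4⟩ := key v w h hd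
  obtain ⟨l', l1', -, l3', l4'⟩ := key v' w' h' hd'
  have g1 := congrArg l (e.symm.trans e')
  have g2 := congrArg l' (e.symm.trans e')
  simp only [map_add, map_smul, smul_eq_mul, ← l1, ← l1'] at g1 g2
  have i1 := mul_nonneg hβ'.le (sub_nonneg.2 (l3 v' h'.1))
  have i2 := mul_nonneg hγ'.le (sub_nonneg.2 (l3 w' h'.2.1))
  have i3 := mul_nonneg hβ.le (sub_nonneg.2 (l3' v h.1))
  have i4 := mul_nonneg hγ.le (sub_nonneg.2 (l3' w h.2.1))
  have j1 : (α - α') * (l v - l (k η)) = β' * (l v - l v') + γ' * (l v - l w') := by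
    have : γ = α' + β' + γ' - α - β := by linarith
    subst this
    linarith
  have j2 : (α' - α) * (l' v' - l' (k η)) = β * (l' v' - l' v) + γ * (l' v' - l' w) := by
    have : γ' = α + β + γ - α' - β' := by linarith
    subst this
    linarith
  have m1 : 0 ≤ α - α' := nonneg_of_mul_nonneg_left (by rw [j1]; linarith) (sub_pos.2 l4)
  have m2 : 0 ≤ α' - α := nonneg_of_mul_nonneg_left (by rw [j2]; linarith) (sub_pos.2 l4')
  have m3 : α - α' = 0 := by linarith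
  rw [m3, zero_mul] at j1
  have n1 : l v' = l v := by
    have := (mul_eq_zero.1 (show β' * (l v - l v') = 0 by linarith)).resolve_left hβ'.ne'
    linarith
  have n2 : l w' = l v := by
    have := (mul_eq_zero.1 (show γ' * (l v - l w') = 0 by linarith)).resolve_left hγ'.ne'
    linarith
  have o1 : v' = v ∨ v' = w := by
    by_contra hcon
    push Not at hcon
    exact absurd n1 (l2 v' h'.1 hcon.1 hcon.2).ne
  have o2 : w' = v ∨ w' = w := by
    by_contra hcon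
    push Not at hcon
    exact absurd n2 (l2 w' h'.2.1 hcon.1 hcon.2).ne
  rcases o1 with o1 | o1 <;> rcases o2 with o2 | o2
  · exact absurd (o1.trans o2.symm) h'.2.2.1
  · exact ⟨rfl, o1.symm, o2.symm⟩
  · exfalso
    rw [o1, o2] at hd'
    have : det3 (k η) w v = -det3 (k η) v w := by simp only [det3]; ring
    linarith
  · exact absurd (o1.trans o2.symm) h'.2.2.1

lemma lin3_mem {K : Set E} (hK : Convex ℝ K) (h0 : (0 : E) ∈ K) {p q r : E} (hp : p ∈ K)
    (hq : q ∈ K) (hr : r ∈ K) {x : E} (hx : x ∈ D1) : lin3 p q r x ∈ K := by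
  obtain ⟨x0, x1, x2, x3⟩ := hx
  have := hK.sum_mem (t := (Finset.univ : Finset (Fin 4)))
    (w := ![x 0, x 1, x 2, 1 - (x 0 + x 1 + x 2)]) (z := ![p, q, r, 0])
    (fun i _ => by fin_cases i <;> simp <;> linarith) (by simp [Fin.sum_univ_four])
    (fun i _ => by fin_cases i <;> simpa)
  rw [lin3_apply]
  simpa [Fin.sum_univ_four] using this

/-- The two pieces over one edge. -/
lemma piece {K : Set E} (hK : Convex ℝ K) (h0 : (0 : E) ∈ K) {p v w : E} {a s t : ℝ} (ha : 0 < a)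
    (hs : 0 ≤ s) (ht : 0 ≤ t) (hd : 0 < det3 p v w) (hp : p ∈ K) (hv : a • v ∈ K) (hw : a • w ∈ K)
    (hz : s • v + t • w ∈ K) :
    ∃ R : Set E, R ⊆ K ∧ R ⊆ Cn p v w ∧ NullMeasurableSet R volume ∧
      volume R = ENNReal.ofReal (a * (s + t) * det3 p v w) * volume D1 := by
  set z := s • v + t • w with hzdef
  obtain ⟨P1, k1, c1, n1, v1, u1⟩ : ∃ P : Set E, P ⊆ K ∧ P ⊆ Cn p v w ∧ NullMeasurableSet P volume ∧
      volume P = ENNReal.ofReal (a * t * det3 p v w) * volume D1 ∧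
      ∀ x ∈ P, 0 < det3 p x z := by
    have e : det3 p (a • v) z = a * t * det3 p v w := by
      simp only [det3, hzdef, Pi.add_apply, Pi.smul_apply, smul_eq_mul]; ring
    rcases lt_or_eq_of_le ht with h | h
    · refine ⟨lin3 p (a • v) z '' D1, ?_, ?_,
        (D1_convex.linear_image _).nullMeasurableSet volume, ?_, ?_⟩
      · rintro _ ⟨x, hx, rfl⟩
        exact lin3_mem hK h0 hp hv hz hx
      · rintro _ ⟨x, ⟨x0, x1, x2, -⟩, rfl⟩
        refine ⟨x 0, x 1 * a + x 2 * s, x 2 * t, x0, by positivity, by positivity, ?_⟩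
        rw [lin3_apply, hzdef]; module
      · rw [vol_lin3, e, abs_of_nonneg (by positivity)]
      · rintro _ ⟨x, ⟨x0, x1, x2, -⟩, rfl⟩
        have : det3 p (lin3 p (a • v) z x) z = x 1 * det3 p (a • v) z := by
          simp only [lin3_apply, det3, Pi.add_apply, Pi.smul_apply, smul_eq_mul]; ring
        rw [this, e]; positivity
    · refine ⟨∅, Set.empty_subset _, Set.empty_subset _, nullMeasurableSet_empty, ?_,
        fun x hx => absurd hx (Set.notMem_empty x)⟩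
      rw [← h]; simp
  obtain ⟨P2, k2, c2, n2, v2, u2⟩ : ∃ P : Set E, P ⊆ K ∧ P ⊆ Cn p v w ∧ NullMeasurableSet P volume ∧
      volume P = ENNReal.ofReal (a * s * det3 p v w) * volume D1 ∧
      ∀ x ∈ P, det3 p x z < 0 := by
    have e : det3 p z (a • w) = a * s * det3 p v w := by
      simp only [det3, hzdef, Pi.add_apply, Pi.smul_apply, smul_eq_mul]; ring
    rcases lt_or_eq_of_le hs with h | h
    · refine ⟨lin3 p z (a • w) '' D1, ?_, ?_,
        (D1_convex.linear_image _).nullMeasurableSet volume, ?_, ?_⟩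
      · rintro _ ⟨x, hx, rfl⟩
        exact lin3_mem hK h0 hp hz hw hx
      · rintro _ ⟨x, ⟨x0, x1, x2, -⟩, rfl⟩
        refine ⟨x 0, x 1 * s, x 1 * t + x 2 * a, x0, by positivity, by positivity, ?_⟩
        rw [lin3_apply, hzdef]; module
      · rw [vol_lin3, e, abs_of_nonneg (by positivity)]
      · rintro _ ⟨x, ⟨x0, x1, x2, -⟩, rfl⟩
        have : det3 p (lin3 p z (a • w) x) z = -(x 2 * det3 p z (a • w)) := by
          simp only [lin3_apply, det3, Pi.add_apply, Pi.smul_apply, smul_eq_mul]; ring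
        rw [this, e, neg_lt_zero]; positivity
    · refine ⟨∅, Set.empty_subset _, Set.empty_subset _, nullMeasurableSet_empty, ?_,
        fun x hx => absurd hx (Set.notMem_empty x)⟩
      rw [← h]; simp
  refine ⟨P1 ∪ P2, Set.union_subset k1 k2, Set.union_subset c1 c2, n1.union n2, ?_⟩
  have hdis : Disjoint P1 P2 := Set.disjoint_left.2 fun x h1 h2 => by
    linarith [u1 x h1, u2 x h2]
  rw [measure_union₀ n2 hdis.aedisjoint, v1, v2, ← add_mul,
    ← ENNReal.ofReal_add (by positivity) (by positivity)]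
  congr 2
  ring

/-- The flag bound. -/
theorem flag_bound (hV : CP V) (hI : Int0 V) {K : Set E} (hK : Convex ℝ K) (hKV : K ⊆ cv V)
    (h0 : (0 : E) ∈ K) {a b : ℝ} (ha : 0 < a) (hva : ∀ v ∈ V, a • v ∈ K)
    (hvb : ∀ v w, Adj V v w → ∃ s t : ℝ, 0 ≤ s ∧ 0 ≤ t ∧ s + t = b ∧ s • v + t • w ∈ K)
    (hf : ∀ η ∈ Fac V, ∃ x ∈ K, η x = 1) :
    ENNReal.ofReal (a * b) * volume (cv V) ≤ volume K := by
  classical
  choose! k hkK hk1 using hf
  have hk : ∀ η ∈ Fac V, k η ∈ cv V ∧ η (k η) = 1 := fun η h => ⟨hKV (hkK η h), hk1 η h⟩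
  set A := (Fac_finite V).toFinset ×ˢ V ×ˢ V with hA
  set I := A.filter (fun τ => Adj V τ.2.1 τ.2.2 ∧ τ.1 τ.2.1 = 1 ∧ τ.1 τ.2.2 = 1 ∧
    0 < det3 (k τ.1) τ.2.1 τ.2.2) with hIdef
  set J := A.filter (fun τ => det3 (k τ.1) τ.2.1 τ.2.2 = 0) with hJ
  have hImem : ∀ τ, τ ∈ I ↔ τ.1 ∈ Fac V ∧ Adj V τ.2.1 τ.2.2 ∧ τ.1 τ.2.1 = 1 ∧ τ.1 τ.2.2 = 1 ∧
      0 < det3 (k τ.1) τ.2.1 τ.2.2 := fun τ => by
    simp only [hIdef, hA, Finset.mem_filter, Finset.mem_product, Set.Finite.mem_toFinset]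
    exact ⟨fun h => ⟨h.1.1, h.2⟩, fun h => ⟨⟨h.1, h.2.1.1, h.2.1.2.1⟩, h.2⟩⟩
  have hcover : cv V ⊆ ({0} ∪ ⋃ τ ∈ J, lin3 (k τ.1) τ.2.1 τ.2.2 '' D0) ∪
      ⋃ τ ∈ I, lin3 (k τ.1) τ.2.1 τ.2.2 '' D0 := by
    intro x hx
    by_cases hx0 : x = 0
    · exact Or.inl (Or.inl hx0)
    obtain ⟨η, hη, v, w, hvw, ev, ew, hxm⟩ := flag_cover hV hI k hk hx hx0
    rcases lt_trichotomy 0 (det3 (k η) v w) with h | h | h
    · exact Or.inr (Set.mem_biUnion (x := (η, v, w)) ((hImem _).2 ⟨hη, hvw, ev, ew, h⟩) hxm)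
    · refine Or.inl (Or.inr (Set.mem_biUnion (x := (η, v, w)) ?_ hxm))
      simp only [hJ, hA, Finset.coe_filter, Finset.mem_product, Set.Finite.mem_toFinset,
        Set.mem_ofPred_eq]
      exact ⟨⟨hη, hvw.1, hvw.2.1⟩, h.symm⟩
    · have e : det3 (k η) w v = -det3 (k η) v w := by simp only [det3]; ring
      refine Or.inr (Set.mem_biUnion (x := (η, w, v))
        ((hImem _).2 ⟨hη, hvw.symm, ew, ev, by rw [e]; linarith⟩) ?_)
      obtain ⟨c, ⟨c0, c1, c2, c3⟩, rfl⟩ := hxm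
      refine ⟨![c 0, c 2, c 1], ⟨c0, c2, c1, by simp; linarith⟩, ?_⟩
      simp only [lin3_apply, Matrix.cons_val_zero, Matrix.cons_val_one, Matrix.cons_val]
      abel
  have hnull : volume (({0} : Set E) ∪ ⋃ τ ∈ J, lin3 (k τ.1) τ.2.1 τ.2.2 '' D0) = 0 := by
    refine measure_union_null (measure_singleton _) ?_
    refine (measure_biUnion_null_iff J.countable_toSet).2 fun τ hτ => ?_
    rw [vol_lin3, (Finset.mem_filter.1 hτ).2]
    simp
  have hup : volume (cv V) ≤ ∑ τ ∈ I, ENNReal.ofReal (det3 (k τ.1) τ.2.1 τ.2.2) * volume D1 := by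
    refine (measure_mono hcover).trans ((measure_union_le _ _).trans ?_)
    rw [hnull, zero_add]
    refine (measure_biUnion_finset_le _ _).trans (Finset.sum_le_sum fun τ hτ => ?_)
    rw [vol_lin3, abs_of_pos ((hImem τ).1 hτ).2.2.2.2]
    exact mul_le_mul_right vol_D0_le _
  have hR : ∀ τ ∈ I, ∃ R : Set E, R ⊆ K ∧ R ⊆ Cn (k τ.1) τ.2.1 τ.2.2 ∧
      NullMeasurableSet R volume ∧
      volume R = ENNReal.ofReal (a * b * det3 (k τ.1) τ.2.1 τ.2.2) * volume D1 := fun τ hτ => by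
    obtain ⟨h1, h2, -, -, h5⟩ := (hImem τ).1 hτ
    obtain ⟨s, t, hs, ht, hst, hz⟩ := hvb _ _ h2
    rw [← hst]
    exact piece hK h0 ha hs ht h5 (hkK _ h1) (hva _ h2.1) (hva _ h2.2.1) hz
  choose! R r1 r2 r3 r4 using hR
  have hdis : Set.Pairwise (I : Set (L × E × E)) (Function.onFun (AEDisjoint volume) R) := by
    intro τ hτ τ' hτ' hne
    refine Disjoint.aedisjoint (Set.disjoint_left.2 fun x h1 h2 => hne ?_)
    obtain ⟨a1, a2, a3, a4, a5⟩ := (hImem τ).1 hτ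
    obtain ⟨b1, b2, b3, b4, b5⟩ := (hImem τ').1 hτ'
    obtain ⟨e1, e2, e3⟩ := cone_unique hV k hk a1 b1 a2 b2 a3 a4 b3 b4 a5 b5 (r2 τ hτ h1)
      (r2 τ' hτ' h2)
    exact Prod.ext e1 (Prod.ext e2 e3)
  rcases lt_or_ge b 0 with hb | hb
  · rw [ENNReal.ofReal_of_nonpos (mul_nonpos_of_nonneg_of_nonpos ha.le hb.le), zero_mul]
    exact zero_le
  calc ENNReal.ofReal (a * b) * volume (cv V)
      ≤ ENNReal.ofReal (a * b) *
        ∑ τ ∈ I, ENNReal.ofReal (det3 (k τ.1) τ.2.1 τ.2.2) * volume D1 := mul_le_mul_right hup _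
    _ = ∑ τ ∈ I, volume (R τ) := by
      rw [Finset.mul_sum]
      refine Finset.sum_congr rfl fun τ hτ => ?_
      rw [r4 τ hτ, ← mul_assoc, ← ENNReal.ofReal_mul (mul_nonneg ha.le hb)]
    _ = volume (⋃ τ ∈ I, R τ) := (measure_biUnion_finset₀ hdis r3).symm
    _ ≤ volume K := measure_mono (Set.iUnion₂_subset r1)

end Pool.Agent.Lib.MP_7fdcdd_gt.H77
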