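import Pool.Agent.Lib.MP_7fdcdd_gt.H77.Basic

/-! Convex hulls of vertex sets, edges, and the iteration. -/

namespace Pool.Agent.Lib.MP_7fdcdd_gt.H77

variable {V : Finset E}

/-- Shorthand for the hull of a finite set. -/
def cv (V : Finset E) : Set E := convexHull ℝ (V : Set E)

lemma cv_convex (V : Finset E) : Convex ℝ (cv V) := convex_convexHull ℝ _

lemma cv_compact (V : Finset E) : IsCompact (cv V) := V.finite_toSet.isCompact_convexHull ℝ

lemma mem_cv_of_mem {v : E} (h : v ∈ V) : v ∈ cv V := subset_convexHull ℝ _ h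

lemma cv_mono {W : Finset E} (h : ∀ w ∈ W, w ∈ cv V) : cv W ⊆ cv V :=
  convexHull_min h (cv_convex V)

lemma le_of_mem_cv {l : L} {M : ℝ} (h : ∀ v ∈ V, l v ≤ M) {x : E} (hx : x ∈ cv V) : l x ≤ M :=
  convexHull_min (t := {x | l x ≤ M}) h (convex_halfSpace_le l.isLinear M) hx

lemma lt_of_mem_cv {l : L} {M : ℝ} (h : ∀ v ∈ V, l v < M) {x : E} (hx : x ∈ cv V) : l x < M :=
  convexHull_min (t := {x | l x < M}) h (convex_halfSpace_lt l.isLinear M) hx

lemma ge_of_mem_cv {l : L} {M : ℝ} (h : ∀ v ∈ V, M ≤ l v) {x : E} (hx : x ∈ cv V) : M ≤ l x :=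
  convexHull_min (t := {x | M ≤ l x}) h (convex_halfSpace_ge l.isLinear M) hx

/-- A point on a supporting plane lies in the hull of the points on that plane. -/
lemma mem_cv_face {l : L} {M : ℝ} (h : ∀ v ∈ V, l v ≤ M) {x : E} (hx : x ∈ cv V)
    (hM : M ≤ l x) {T : Finset E} (hT : ∀ v ∈ V, l v = M → v ∈ T) : x ∈ cv T := by
  classical
  obtain ⟨w, hw0, hw1, rfl⟩ := Finset.mem_convexHull'.1 hx
  have h1 : ∑ y ∈ V, w y * (M - l y) = 0 := by
    have e : ∑ y ∈ V, w y * (M - l y) = M - l (∑ y ∈ V, w y • y) := by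
      simp only [mul_sub, Finset.sum_sub_distrib, ← Finset.sum_mul, hw1, map_sum, map_smul,
        smul_eq_mul, one_mul]
    have h2 : 0 ≤ ∑ y ∈ V, w y * (M - l y) :=
      Finset.sum_nonneg fun y hy => mul_nonneg (hw0 y hy) (sub_nonneg.2 (h y hy))
    linarith
  rw [Finset.sum_eq_zero_iff_of_nonneg
    (fun y hy => mul_nonneg (hw0 y hy) (sub_nonneg.2 (h y hy)))] at h1
  have h3 : ∀ y ∈ V, w y ≠ 0 → y ∈ T := fun y hy hne => by
    have := (mul_eq_zero.1 (h1 y hy)).resolve_left hne
    exact hT y hy (by linarith)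
  have e1 : ∑ y ∈ V.filter (fun y => w y ≠ 0), w y = 1 := by
    rw [Finset.sum_filter_ne_zero, hw1]
  have e2 : ∑ y ∈ V.filter (fun y => w y ≠ 0), w y • y = ∑ y ∈ V, w y • y := by
    apply Finset.sum_filter_of_ne
    intro y _ hne h0
    exact hne (by rw [h0, zero_smul])
  rw [← e2]
  exact (cv_convex T).sum_mem (fun y hy => hw0 y (Finset.mem_filter.1 hy).1) e1
    (fun y hy => mem_cv_of_mem (h3 y (Finset.mem_filter.1 hy).1 (Finset.mem_filter.1 hy).2))

/-- Separation from a compact convex set. -/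
lemma separate {K : Set E} (hc : Convex ℝ K) (hK : IsClosed K) {x : E} (hx : x ∉ K) :
    ∃ (l : L) (c : ℝ), (∀ y ∈ K, l y < c) ∧ c < l x := by
  obtain ⟨f, c, h1, h2⟩ := geometric_hahn_banach_closed_point hc hK hx
  exact ⟨f.toLinearMap, c, h1, h2⟩

lemma eq_of_exposed {l : L} {v x : E} (hl : ∀ w ∈ V, w ≠ v → l w < l v) (hx : x ∈ cv V)
    (hM : l v ≤ l x) : x = v := by
  have h1 : x ∈ cv {v} := mem_cv_face (M := l v) (fun w hw => by
    by_cases h : w = v
    · rw [h]
    · exact (hl w hw h).le) hx hM (fun w hw he => by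
      by_contra h
      exact absurd he (hl w hw (by simpa using h)).ne)
  simpa [cv] using h1

/-- Every finite set has a subset in convex position with the same hull. -/
lemma exists_CP (S : Finset E) : ∃ V : Finset E, CP V ∧ cv V = cv S := by
  classical
  induction S using Finset.strongInduction with
  | H S ih =>
    by_cases h : ∃ v ∈ S, v ∈ cv (S.erase v)
    · obtain ⟨v, hv, hv'⟩ := h
      obtain ⟨V, h1, h2⟩ := ih (S.erase v) (Finset.erase_ssubset hv)
      refine ⟨V, h1, h2.trans (Set.Subset.antisymm ?_ ?_)⟩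
      · exact cv_mono fun w hw => mem_cv_of_mem (Finset.mem_of_mem_erase hw)
      · refine cv_mono fun w hw => ?_
        by_cases hwv : w = v
        · rw [hwv]; exact hv'
        · exact mem_cv_of_mem (Finset.mem_erase.2 ⟨hwv, hw⟩)
    · push Not at h
      refine ⟨S, fun v hv => ?_, rfl⟩
      obtain ⟨l, c, h1, h2⟩ := separate (cv_convex _) (cv_compact _).isClosed (h v hv)
      exact ⟨l, fun w hw hwv =>
        (h1 w (mem_cv_of_mem (Finset.mem_erase.2 ⟨hwv, hw⟩))).trans h2⟩

lemma cv_pair [DecidableEq E] (a b : E) : cv {a, b} = segment ℝ a b := by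
  simp [cv, convexHull_pair]

lemma isEdge_iff (hV : CP V) {a b : E} : IsEdge (cv V) a b ↔ Adj V a b := by
  classical
  constructor
  · rintro ⟨hab, h⟩
    obtain ⟨f, hf⟩ := h ⟨a, left_mem_segment ℝ a b⟩
    set l : L := f.toLinearMap
    have hl : ∀ x, l x = f x := fun x => rfl
    have hmem : ∀ x, x ∈ segment ℝ a b ↔ x ∈ cv V ∧ ∀ y ∈ cv V, l y ≤ l x := fun x => by
      rw [hf]; rfl
    have ha := (hmem a).1 (left_mem_segment ℝ a b)
    have hb := (hmem b).1 (right_mem_segment ℝ a b)
    have hab' : l a = l b := le_antisymm (hb.2 a ha.1) (ha.2 b hb.1)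
    have htop : ∀ v ∈ V, l v = l a → v ∈ segment ℝ a b := fun v hv he =>
      (hmem v).2 ⟨mem_cv_of_mem hv, fun y hy => he ▸ ha.2 y hy⟩
    -- an endpoint is a vertex
    have hend : ∀ a b : E, a ≠ b → a ∈ cv V → (∀ y ∈ cv V, l y ≤ l a) →
        (∀ v ∈ V, l v = l a → v ∈ segment ℝ a b) → a ∈ V := by
      intro a b hab ha hmax htop
      obtain ⟨χ, c, h1, h2⟩ := separate (convex_singleton b) isClosed_singleton
        (show a ∉ ({b} : Set E) from hab)
      have h3 : χ b < χ a := (h1 b rfl).trans h2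
      by_contra hcon
      have h4 : a ∈ cv (V.filter (fun v => l v = l a)) :=
        mem_cv_face (fun v hv => hmax v (mem_cv_of_mem hv)) ha le_rfl
          (fun v hv he => Finset.mem_filter.2 ⟨hv, he⟩)
      have h5 : χ a < χ a := by
        refine lt_of_mem_cv (fun v hv => ?_) h4
        rw [Finset.mem_filter] at hv
        obtain ⟨s, t, hs, ht, hst, rfl⟩ := htop v hv.1 hv.2
        have ht' : t ≠ 0 := by
          rintro rfl
          have : s = 1 := by linarith
          subst this
          exact hcon (by simpa using hv.1)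
        have ht'' : 0 < t := lt_of_le_of_ne ht ht'.symm
        rw [map_add, map_smul, map_smul, smul_eq_mul, smul_eq_mul]
        have : s = 1 - t := by linarith
        subst this
        nlinarith
      exact lt_irrefl _ h5
    have haV := hend a b hab ha.1 ha.2 htop
    have hbV := hend b a hab.symm hb.1 hb.2 (fun v hv he => by
      rw [segment_symm]; exact htop v hv (he.trans hab'.symm))
    refine ⟨haV, hbV, hab, l, fun c hc hca hcb => ?_⟩
    have h1 : l c < l a := by
      refine lt_of_le_of_ne (ha.2 c (mem_cv_of_mem hc)) fun he => ?_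
      obtain ⟨χ, hχ⟩ := hV c hc
      have h2 : c ∈ cv {a, b} := by rw [cv_pair]; exact htop c hc he
      have h3 : χ c < χ c := lt_of_mem_cv (fun v hv => by
        rcases Finset.mem_insert.1 hv with h | h
        · rw [h]; exact hχ a haV hca.symm
        · rw [Finset.mem_singleton.1 h]; exact hχ b hbV hcb.symm) h2
      exact lt_irrefl _ h3
    exact ⟨h1, hab' ▸ h1⟩
  · intro h
    obtain ⟨l, h1, h2⟩ := h.strong hV
    have hle : ∀ v ∈ V, l v ≤ l a := fun v hv => by
      by_cases hva : v = a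
      · rw [hva]
      · by_cases hvb : v = b
        · rw [hvb, h1]
        · exact (h2 v hv hva hvb).le
    refine ⟨h.2.2.1, fun _ => ⟨LinearMap.toContinuousLinearMap l, ?_⟩⟩
    ext x
    simp only [Set.mem_ofPred_eq, LinearMap.coe_toContinuousLinearMap']
    constructor
    · intro hx
      have hx' : x ∈ cv {a, b} := by rw [cv_pair]; exact hx
      refine ⟨cv_mono (fun w hw => ?_) hx', fun y hy => (le_of_mem_cv hle hy).trans ?_⟩
      · rcases Finset.mem_insert.1 hw with h3 | h3
        · rw [h3]; exact mem_cv_of_mem h.1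
        · rw [Finset.mem_singleton.1 h3]; exact mem_cv_of_mem h.2.1
      · refine ge_of_mem_cv (fun w hw => ?_) hx'
        rcases Finset.mem_insert.1 hw with h3 | h3
        · rw [h3]
        · rw [Finset.mem_singleton.1 h3, h1]
    · rintro ⟨hx, hmax⟩
      rw [← cv_pair]
      refine mem_cv_face hle hx (hmax a (mem_cv_of_mem h.1)) fun v hv he => ?_
      by_contra hcon
      simp only [Finset.mem_insert, Finset.mem_singleton, not_or] at hcon
      exact absurd he (h2 v hv hcon.1 hcon.2).ne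

lemma mid_cv (hV : CP V) : mid (cv V) = cv (nxt V) := by
  unfold mid cv
  congr 1
  ext m
  simp only [Set.mem_ofPred_eq, Finset.mem_coe, mem_nxt]
  exact exists_congr fun a => exists_congr fun b => and_congr_left fun _ => isEdge_iff hV

lemma CP_iter (hV : CP V) (k : ℕ) : CP (nxt^[k] V) := by
  cases k with
  | zero => exact hV
  | succ k => rw [Function.iterate_succ_apply']; exact CP.nxt _

lemma iter_mid_cv (hV : CP V) (k : ℕ) : mid^[k] (cv V) = cv (nxt^[k] V) := by
  induction k with
  | zero => rfl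
  | succ k ih => rw [Function.iterate_succ_apply', Function.iterate_succ_apply', ih,
      mid_cv (CP_iter hV k)]

lemma kernel_cv (hV : CP V) : kernel (cv V) = ⋂ k : ℕ, cv (nxt^[k] V) := by
  unfold kernel
  exact Set.iInter_congr fun k => iter_mid_cv hV k

lemma cv_nxt_subset (V : Finset E) : cv (nxt V) ⊆ cv V := by
  refine cv_mono fun m hm => ?_
  obtain ⟨a, b, h, rfl⟩ := mem_nxt.1 hm
  exact (cv_convex V).midpoint_mem (mem_cv_of_mem h.1) (mem_cv_of_mem h.2.1)

/-- The kernel of the hull of `V`, as an intersection of hulls of vertex sets. -/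
def ker (V : Finset E) : Set E := ⋂ k : ℕ, cv (nxt^[k] V)

lemma ker_convex (V : Finset E) : Convex ℝ (ker V) := convex_iInter fun _ => cv_convex _

lemma ker_closed (V : Finset E) : IsClosed (ker V) :=
  isClosed_iInter fun _ => (cv_compact _).isClosed

lemma ker_subset (V : Finset E) : ker V ⊆ cv V := Set.iInter_subset_of_subset 0 subset_rfl

lemma ker_nxt (V : Finset E) : ker (nxt V) = ker V := by
  ext x
  simp only [ker, Set.mem_iInter]
  constructor
  · intro h k
    cases k with
    | zero => exact cv_nxt_subset V (h 0)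
    | succ k => exact h k
  · intro h k
    exact h (k + 1)

/-- All midpoints of two distinct vertices lie in the next polytope. -/
lemma mid_mem_cv_nxt (hV : CP V) {a b : E} (ha : a ∈ V) (hb : b ∈ V) (hab : a ≠ b) :
    midpoint ℝ a b ∈ cv (nxt V) := by
  by_contra hcon
  obtain ⟨l, c, h1, h2⟩ := separate (cv_convex _) (cv_compact _).isClosed hcon
  obtain ⟨s, t, hst, h3, h4⟩ := exists_top_edge hV l ⟨a, ha, b, hb, hab⟩
  have h5 := pair_le_of_top h3 h4 ha hb hab
  have h6 := h1 _ (mem_cv_of_mem hst.mid_mem)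
  rw [map_mid] at h6 h2
  linarith

/-- Three distinct vertices are affinely independent. -/
lemma three_indep (hV : CP V) {a b c : E} (ha : a ∈ V) (hb : b ∈ V) (hc : c ∈ V)
    (hab : a ≠ b) (hac : a ≠ c) (hbc : b ≠ c) {x y z : ℝ} (hs : x + y + z = 0)
    (hv : x • a + y • b + z • c = 0) : x = 0 ∧ y = 0 ∧ z = 0 := by
  have key : ∀ a b c : E, a ∈ V → b ∈ V → c ∈ V → a ≠ c → b ≠ c → ∀ x y z : ℝ, x + y + z = 0 →
      x • a + y • b + z • c = 0 → (0 ≤ x → 0 ≤ y → x = 0 ∧ y = 0) ∧
        (x ≤ 0 → y ≤ 0 → x = 0 ∧ y = 0) := by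
    intro a b c ha hb hc hac hbc x y z hs hv
    obtain ⟨χ, hχ⟩ := hV c hc
    have h1 := hχ a ha hac
    have h2 := hχ b hb hbc
    have h3 := congrArg χ hv
    simp only [map_add, map_smul, smul_eq_mul, map_zero] at h3
    have hz : z = -x - y := by linarith
    subst hz
    have h4 : x * (χ c - χ a) + y * (χ c - χ b) = 0 := by linarith
    constructor
    · intro hx hy
      have h5 := mul_nonneg hx (sub_pos.2 h1).le
      have h6 := mul_nonneg hy (sub_pos.2 h2).le
      constructor
      · exact (mul_eq_zero.1 (show x * (χ c - χ a) = 0 by linarith)).resolve_right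
          (sub_pos.2 h1).ne'
      · exact (mul_eq_zero.1 (show y * (χ c - χ b) = 0 by linarith)).resolve_right
          (sub_pos.2 h2).ne'
    · intro hx hy
      have h5 := mul_nonpos_of_nonpos_of_nonneg hx (sub_pos.2 h1).le
      have h6 := mul_nonpos_of_nonpos_of_nonneg hy (sub_pos.2 h2).le
      constructor
      · exact (mul_eq_zero.1 (show x * (χ c - χ a) = 0 by linarith)).resolve_right
          (sub_pos.2 h1).ne'
      · exact (mul_eq_zero.1 (show y * (χ c - χ b) = 0 by linarith)).resolve_right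
          (sub_pos.2 h2).ne'
  have k1 := key a b c ha hb hc hac hbc x y z hs hv
  have k2 := key a c b ha hc hb hab hbc.symm x z y (by linarith) (by rw [← hv]; abel)
  have k3 := key b c a hb hc ha hab.symm hac.symm y z x (by linarith) (by rw [← hv]; abel)
  rcases le_total 0 x with hx | hx <;> rcases le_total 0 y with hy | hy <;>
    rcases le_total 0 z with hz | hz
  · exact ⟨by linarith, by linarith, by linarith⟩
  · have := k1.1 hx hy; exact ⟨this.1, this.2, by linarith [this.1, this.2]⟩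
  · have := k2.1 hx hz; exact ⟨this.1, by linarith [this.1, this.2], this.2⟩
  · have := k3.2 hy hz; exact ⟨by linarith [this.1, this.2], this.1, this.2⟩
  · have := k3.1 hy hz; exact ⟨by linarith [this.1, this.2], this.1, this.2⟩
  · have := k2.2 hx hz; exact ⟨this.1, by linarith [this.1, this.2], this.2⟩
  · have := k1.2 hx hy; exact ⟨this.1, this.2, by linarith [this.1, this.2]⟩
  · exact ⟨by linarith, by linarith, by linarith⟩

/-- Three distinct highest points. -/
def Top3 (V : Finset E) (l : L) (M : ℝ) : Prop :=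
  (∀ v ∈ V, l v ≤ M) ∧ ∃ a ∈ V, ∃ b ∈ V, ∃ c ∈ V, a ≠ b ∧ a ≠ c ∧ b ≠ c ∧
    l a = M ∧ l b = M ∧ l c = M

lemma Top3.nxt (hV : CP V) {l : L} {M : ℝ} (h : Top3 V l M) : Top3 (nxt V) l M := by
  classical
  obtain ⟨hle, a, ha, b, hb, c, hc, hab, hac, hbc, ea, eb, ec⟩ := h
  have hle' : ∀ v ∈ H77.nxt V, l v ≤ M := fun v hv =>
    le_of_mem_cv hle (cv_nxt_subset V (mem_cv_of_mem hv))
  refine ⟨hle', ?_⟩
  set T := (H77.nxt V).filter (fun v => l v = M) with hT
  have hmem : ∀ x ∈ V, ∀ y ∈ V, x ≠ y → l x = M → l y = M → midpoint ℝ x y ∈ cv T :=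
    fun x hx y hy hxy ex ey => mem_cv_face hle' (mid_mem_cv_nxt hV hx hy hxy)
      (by rw [map_mid, ex, ey]; linarith) (fun v hv he => Finset.mem_filter.2 ⟨hv, he⟩)
  by_cases hcard : 2 < T.card
  · obtain ⟨p, q, r, hp, hq, hr, h1, h2, h3⟩ := Finset.two_lt_card_iff.1 hcard
    rw [hT, Finset.mem_filter] at hp hq hr
    exact ⟨p, hp.1, q, hq.1, r, hr.1, h1, h2, h3, hp.2, hq.2, hr.2⟩
  exfalso
  have hsub : ∃ p q : E, cv T ⊆ segment ℝ p q := by
    have : T.card = 0 ∨ T.card = 1 ∨ T.card = 2 := by omega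
    rcases this with h | h | h
    · rw [Finset.card_eq_zero] at h
      exact ⟨0, 0, by rw [h]; simp [cv]⟩
    · obtain ⟨p, hp⟩ := Finset.card_eq_one.1 h
      exact ⟨p, p, by rw [hp]; simp [cv]⟩
    · obtain ⟨p, q, -, hp⟩ := Finset.card_eq_two.1 h
      exact ⟨p, q, by rw [hp, cv_pair]⟩
  obtain ⟨p, q, hsub⟩ := hsub
  have m1 := hsub (hmem a ha b hb hab ea eb)
  have m2 := hsub (hmem a ha c hc hac ea ec)
  have m3 := hsub (hmem b hb c hc hbc eb ec)
  rw [segment_eq_image'] at m1 m2 m3
  obtain ⟨t1, -, e1⟩ := m1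
  obtain ⟨t2, -, e2⟩ := m2
  obtain ⟨t3, -, e3⟩ := m3
  simp only [midpoint_eq_smul_add, invOf_eq_inv] at e1 e2 e3
  have f1 : b - c = (2 * (t1 - t2)) • (q - p) := by
    have : b - c = (2 : ℝ) • ((2 : ℝ)⁻¹ • (a + b) - (2 : ℝ)⁻¹ • (a + c)) := by module
    rw [this, ← e1, ← e2]; module
  have f2 : a - b = (2 * (t2 - t3)) • (q - p) := by
    have : a - b = (2 : ℝ) • ((2 : ℝ)⁻¹ • (a + c) - (2 : ℝ)⁻¹ • (b + c)) := by module
    rw [this, ← e2, ← e3]; module
  have h := three_indep hV ha hb hc hab hac hbc (x := -(t1 - t2)) (y := (t2 - t3) + (t1 - t2))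
    (z := -(t2 - t3)) (by ring) (by
      have : (-(t1 - t2)) • a + ((t2 - t3) + (t1 - t2)) • b + (-(t2 - t3)) • c =
          (t2 - t3) • (b - c) - (t1 - t2) • (a - b) := by module
      rw [this, f1, f2]; module)
  have : t1 - t2 = 0 := by linarith [h.1]
  rw [this] at f1
  exact hbc (by simpa [sub_eq_zero] using f1)

/-- The kernel meets every face with three highest points. -/
lemma Top3.ker_meets (hV : CP V) {l : L} {M : ℝ} (h : Top3 V l M) : ∃ x ∈ ker V, l x = M := by
  have hk : ∀ k, Top3 (H77.nxt^[k] V) l M := by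
    intro k
    induction k with
    | zero => exact h
    | succ k ih => rw [Function.iterate_succ_apply']; exact ih.nxt (CP_iter hV k)
  have hcl : IsClosed {x : E | l x = M} :=
    isClosed_eq l.continuous_of_finiteDimensional continuous_const
  have := IsCompact.nonempty_iInter_of_sequence_nonempty_isCompact_isClosed
    (fun k => cv (H77.nxt^[k] V) ∩ {x | l x = M})
    (fun k => Set.inter_subset_inter_left _ (by
      rw [Function.iterate_succ_apply']; exact cv_nxt_subset _))
    (fun k => by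
      obtain ⟨-, a, ha, -, -, -, -, -, -, -, ea, -⟩ := hk k
      exact ⟨a, mem_cv_of_mem ha, ea⟩)
    ((cv_compact _).inter_right hcl) (fun k => (cv_compact _).isClosed.inter hcl)
  obtain ⟨x, hx⟩ := this
  rw [Set.mem_iInter] at hx
  exact ⟨x, Set.mem_iInter.2 fun k => (hx k).1, (hx 0).2⟩

end Pool.Agent.Lib.MP_7fdcdd_gt.H77
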