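import Pool.Agent.Lib.MP_7fdcdd_gt.H77.Hull

/-! Vertices of polyhedra of functionals, spanning sets and the link witness. -/

namespace Pool.Agent.Lib.MP_7fdcdd_gt.H77

variable {V : Finset E}

lemma grow (W : Finset E) (c : ℝ) (x : E)
    (hdir : ∀ ω : L, ω ≠ 0 → (∃ w ∈ W, 0 < ω w ∧ 0 ≤ ω x) ∨ (∃ w ∈ W, ω w < 0 ∧ ω x ≤ 0))
    (η0 : L) (h0 : ∀ w ∈ W, η0 w ≤ c) :
    ∃ η : L, (∀ w ∈ W, η w ≤ c) ∧ η0 x ≤ η x ∧
      ∀ ω : L, (∀ w ∈ W, η w = c → ω w = 0) → ω = 0 := by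
  classical
  induction hn : (W.filter (fun w => η0 w ≠ c)).card using Nat.strong_induction_on
    generalizing η0 with
  | _ n ih =>
    by_cases h : ∀ ω : L, (∀ w ∈ W, η0 w = c → ω w = 0) → ω = 0
    · exact ⟨η0, h0, le_rfl, h⟩
    push Not at h
    obtain ⟨ω0, hω0, hne⟩ := h
    obtain ⟨ω, hω, ⟨w1, hw1, hpos⟩, hx⟩ : ∃ ω : L, (∀ w ∈ W, η0 w = c → ω w = 0) ∧
        (∃ w ∈ W, 0 < ω w) ∧ 0 ≤ ω x := by
      rcases hdir ω0 hne with ⟨w, hw, h1, h2⟩ | ⟨w, hw, h1, h2⟩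
      · exact ⟨ω0, hω0, ⟨w, hw, h1⟩, h2⟩
      · refine ⟨-ω0, fun w hw he => by simp [hω0 w hw he], ⟨w, hw, by simpa using h1⟩,
          by simpa using h2⟩
    obtain ⟨μ, hμ, ⟨w0, hw0, hg, he⟩, hall⟩ := first_tie W (fun w => c - η0 w) ω
      (fun w hw => sub_nonneg.2 (h0 w hw)) ⟨w1, hw1, hpos⟩
    have hlt : (W.filter (fun w => (η0 + μ • ω) w ≠ c)).card < n := by
      rw [← hn]
      apply Finset.card_lt_card
      rw [Finset.ssubset_iff_of_subset]
      · refine ⟨w0, Finset.mem_filter.2 ⟨hw0, fun h => hg.ne' (hω w0 hw0 h)⟩, fun h => ?_⟩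
        apply (Finset.mem_filter.1 h).2
        simp only [LinearMap.add_apply, LinearMap.smul_apply, smul_eq_mul]
        linarith
      · intro w hw
        rw [Finset.mem_filter] at hw ⊢
        refine ⟨hw.1, fun h => hw.2 ?_⟩
        simp [h, hω w hw.1 h]
    obtain ⟨η, h1, h2, h3⟩ := ih _ hlt (η0 + μ • ω) (fun w hw => by
      have := hall w hw
      simp only [LinearMap.add_apply, LinearMap.smul_apply, smul_eq_mul]
      linarith) rfl
    refine ⟨η, h1, le_trans ?_ h2, h3⟩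
    simp only [LinearMap.add_apply, LinearMap.smul_apply, smul_eq_mul]
    linarith [mul_nonneg hμ hx]

lemma exists_vanish (T : Finset E) (h : T.card ≤ 2) : ∃ ω : L, ω ≠ 0 ∧ ∀ w ∈ T, ω w = 0 := by
  have h1 : Module.finrank ℝ (Submodule.span ℝ (T : Set E)) ≤ T.card :=
    finrank_span_finset_le_card T
  have h2 : Submodule.span ℝ (T : Set E) < ⊤ := by
    apply Submodule.lt_top_of_finrank_lt_finrank
    rw [Module.finrank_fin_fun]
    omega
  obtain ⟨f, hf, hle⟩ := Submodule.exists_le_ker_of_lt_top _ h2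
  exact ⟨f, hf, fun w hw => hle (Submodule.subset_span hw)⟩

lemma three_of_span {W : Finset E} {η : L} {c : ℝ}
    (h : ∀ ω : L, (∀ w ∈ W, η w = c → ω w = 0) → ω = 0) :
    ∃ a ∈ W, ∃ b ∈ W, ∃ d ∈ W, a ≠ b ∧ a ≠ d ∧ b ≠ d ∧ η a = c ∧ η b = c ∧ η d = c := by
  classical
  by_cases hcard : 2 < (W.filter (fun w => η w = c)).card
  · obtain ⟨p, q, r, hp, hq, hr, h1, h2, h3⟩ := Finset.two_lt_card_iff.1 hcard
    rw [Finset.mem_filter] at hp hq hr
    exact ⟨p, hp.1, q, hq.1, r, hr.1, h1, h2, h3, hp.2, hq.2, hr.2⟩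
  · obtain ⟨ω, h1, h2⟩ := exists_vanish _ (not_lt.1 hcard)
    exact absurd (h ω fun w hw he => h2 w (Finset.mem_filter.2 ⟨hw, he⟩)) h1

/-- `V` spans three-space affinely. -/
def Sp (V : Finset E) : Prop := ∀ ω : L, (∀ a ∈ V, ∀ b ∈ V, ω a = ω b) → ω = 0

lemma Sp.nonempty (hS : Sp V) : V.Nonempty := by
  by_contra h
  rw [Finset.not_nonempty_iff_eq_empty] at h
  obtain ⟨ω, h1, -⟩ := exists_vanish ∅ (by simp)
  exact h1 (hS ω (by simp [h]))

lemma Sp.exists_ne (hS : Sp V) (a b c : E) : ∃ v ∈ V, v ≠ a ∧ v ≠ b ∧ v ≠ c := by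
  classical
  obtain ⟨ω, h1, h2⟩ := exists_vanish {b - a, c - a} (Finset.card_le_two)
  by_contra hcon
  push Not at hcon
  have h3 : ∀ v ∈ V, ω v = ω a := fun v hv => by
    by_cases hva : v = a
    · rw [hva]
    · by_cases hvb : v = b
      · have := h2 (b - a) (by simp)
        rw [map_sub] at this
        rw [hvb]; linarith
      · have := h2 (c - a) (by simp)
        rw [map_sub] at this
        rw [hcon v hv hva hvb]; linarith
  exact h1 (hS ω fun x hx y hy => (h3 x hx).trans (h3 y hy).symm)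

lemma Sp.nxt (hV : CP V) (hS : Sp V) : Sp (nxt V) := by
  intro ω hω
  apply hS
  intro b hb c hc
  by_cases hbc : b = c
  · rw [hbc]
  obtain ⟨a, ha, hab, hac, -⟩ := hS.exists_ne b c c
  obtain ⟨s, t, hst, -, -⟩ := exists_top_edge hV ω ⟨b, hb, c, hc, hbc⟩
  have key : ∀ x ∈ cv (H77.nxt V), ω x = ω (midpoint ℝ s t) := fun x hx =>
    le_antisymm (le_of_mem_cv (fun v hv => (hω v hv _ hst.mid_mem).le) hx)
      (ge_of_mem_cv (fun v hv => (hω v hv _ hst.mid_mem).ge) hx)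
  have h1 := key _ (mid_mem_cv_nxt hV ha hb hab)
  have h2 := key _ (mid_mem_cv_nxt hV ha hc hac)
  rw [map_mid] at h1 h2
  linarith

/-- The kernel has a point at least half way between a vertex and its lowest neighbour. -/
lemma link_witness (hV : CP V) (hS : Sp V) {s : E} (hs : s ∈ V) (u : L) (m : ℝ)
    (hm : ∀ x, Adj V s x → m ≤ u x) : ∃ k ∈ ker V, (u s + m) / 2 ≤ u k := by
  classical
  obtain ⟨χ, hχ⟩ := hV s hs
  obtain ⟨v0, hv0, hv0s, -⟩ := hS.exists_ne s s s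
  obtain ⟨v1, hv1, hmax⟩ := Finset.exists_max_image (V.erase s) χ
    ⟨v0, Finset.mem_erase.2 ⟨hv0s, hv0⟩⟩
  rw [Finset.mem_erase] at hv1
  have hδ : 0 < χ s - χ v1 := sub_pos.2 (hχ v1 hv1.2 hv1.1)
  set W := (V.erase s).image (fun v => v - s) with hW
  have hWmem : ∀ w, w ∈ W ↔ ∃ v ∈ V, v ≠ s ∧ w = v - s := fun w => by
    simp only [hW, Finset.mem_image, Finset.mem_erase]
    constructor
    · rintro ⟨v, h, rfl⟩; exact ⟨v, h.2, h.1, rfl⟩
    · rintro ⟨v, h1, h2, rfl⟩; exact ⟨v, ⟨h2, h1⟩, rfl⟩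
  obtain ⟨ζ, h1, -, h3⟩ := grow W (-1) 0 (fun ω hω => by
      have : ∃ v ∈ V, ω v ≠ ω s := by
        by_contra hcon
        push Not at hcon
        exact hω (hS ω fun x hx y hy => (hcon x hx).trans (hcon y hy).symm)
      obtain ⟨v, hv, hne⟩ := this
      have hvs : v ≠ s := fun h => hne (by rw [h])
      rcases lt_or_gt_of_ne hne with h | h
      · exact Or.inr ⟨v - s, (hWmem _).2 ⟨v, hv, hvs, rfl⟩, by rw [map_sub]; linarith, by simp⟩
      · exact Or.inl ⟨v - s, (hWmem _).2 ⟨v, hv, hvs, rfl⟩, by rw [map_sub]; linarith, by simp⟩)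
    ((χ s - χ v1)⁻¹ • χ) (fun w hw => by
      obtain ⟨v, hv, hvs, rfl⟩ := (hWmem w).1 hw
      have := hmax v (Finset.mem_erase.2 ⟨hvs, hv⟩)
      rw [LinearMap.smul_apply, smul_eq_mul, map_sub, inv_mul_le_iff₀ hδ]
      linarith)
  have hle : ∀ v ∈ V, v ≠ s → ζ v ≤ ζ s - 1 := fun v hv hvs => by
    have := h1 _ ((hWmem _).2 ⟨v, hv, hvs, rfl⟩)
    rw [map_sub] at this
    linarith
  obtain ⟨a', ha', b', hb', c', hc', n1, n2, n3, ea, eb, ec⟩ := three_of_span h3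
  obtain ⟨a, ha, has, rfl⟩ := (hWmem _).1 ha'
  obtain ⟨b, hb, hbs, rfl⟩ := (hWmem _).1 hb'
  obtain ⟨c, hc, hcs, rfl⟩ := (hWmem _).1 hc'
  rw [map_sub] at ea eb ec
  have hadj : ∀ x ∈ V, x ≠ s → ζ x - ζ s = -1 → Adj V s x := fun x hx hxs ex =>
    adj_of_second hV hs hx hxs (fun w hw hws => by linarith [hle w hw hws])
      (fun w hw hws => by linarith [hle w hw hws])
  have hinj : ∀ x y : E, midpoint ℝ s x = midpoint ℝ s y → x - s = y - s := fun x y h => by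
    have := (midpoint_eq_midpoint_iff_vsub_eq_vsub ℝ).1 h
    simp only [vsub_self] at this
    rw [(vsub_eq_zero_iff_eq.1 this.symm)]
  have hbound : ∀ q ∈ nxt V, ζ q ≤ ζ s - 1 / 2 := fun q hq => by
    obtain ⟨x, y, hxy, rfl⟩ := mem_nxt.1 hq
    have := pair_le_of_top (V := V) (l := ζ) (s := s) (t := a) (fun w hw => by
      by_cases h : w = s
      · rw [h]
      · linarith [hle w hw h]) (fun w hw h => by linarith [hle w hw h])
      hxy.1 hxy.2.1 hxy.2.2.1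
    rw [map_mid]; linarith
  have htop : Top3 (nxt V) ζ (ζ s - 1 / 2) :=
    ⟨hbound, _, (hadj a ha has ea).mid_mem, _, (hadj b hb hbs eb).mid_mem, _,
      (hadj c hc hcs ec).mid_mem, fun h => n1 (hinj _ _ h), fun h => n2 (hinj _ _ h),
      fun h => n3 (hinj _ _ h), by rw [map_mid]; linarith, by rw [map_mid]; linarith,
      by rw [map_mid]; linarith⟩
  obtain ⟨k, hk, ek⟩ := htop.ker_meets (CP.nxt V)
  refine ⟨k, ker_nxt V ▸ hk, ?_⟩
  have hk2 : k ∈ cv ((nxt V).filter (fun q => (u s + m) / 2 ≤ u q)) := by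
    refine mem_cv_face hbound (ker_subset _ hk) ek.ge fun q hq he => ?_
    refine Finset.mem_filter.2 ⟨hq, ?_⟩
    obtain ⟨x, y, hxy, rfl⟩ := mem_nxt.1 hq
    rw [map_mid] at he ⊢
    by_cases hx : x = s
    · subst hx
      linarith [hm y hxy]
    · by_cases hy : y = s
      · subst hy
        linarith [hm x hxy.symm]
      · linarith [hle x hxy.1 hx, hle y hxy.2.1 hy]
  exact ge_of_mem_cv (fun q hq => (Finset.mem_filter.1 hq).2) hk2

end Pool.Agent.Lib.MP_7fdcdd_gt.H77
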