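import Pool.Agent.Lib.MP_7fdcdd_gt.H77.Link

/-! Volumes of simplices with a vertex at the origin. -/

namespace Pool.Agent.Lib.MP_7fdcdd_gt.H77

open MeasureTheory

/-- The linear map with columns `p`, `q`, `r`. -/
noncomputable def lin3 (p q r : E) : E →ₗ[ℝ] E :=
  Matrix.toLin' (Matrix.of fun i j => (![p, q, r] : Fin 3 → E) j i)

/-- The determinant of three vectors. -/
def det3 (p q r : E) : ℝ :=
  p 0 * q 1 * r 2 - p 0 * r 1 * q 2 - q 0 * p 1 * r 2 + q 0 * r 1 * p 2 + r 0 * p 1 * q 2 -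
    r 0 * q 1 * p 2

lemma lin3_apply (p q r a : E) : lin3 p q r a = a 0 • p + a 1 • q + a 2 • r := by
  ext i
  simp [lin3, Matrix.toLin'_apply, Matrix.mulVec, dotProduct, Fin.sum_univ_three]
  ring

lemma det_lin3 (p q r : E) : LinearMap.det (lin3 p q r) = det3 p q r := by
  rw [lin3, LinearMap.det_toLin', Matrix.det_fin_three]
  simp [det3]

/-- The standard simplex. -/
def D0 : Set E := {a | 0 ≤ a 0 ∧ 0 ≤ a 1 ∧ 0 ≤ a 2 ∧ a 0 + a 1 + a 2 ≤ 1}

/-- The standard simplex without its coordinate faces. -/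
def D1 : Set E := {a | 0 < a 0 ∧ 0 < a 1 ∧ 0 < a 2 ∧ a 0 + a 1 + a 2 ≤ 1}

lemma D1_convex : Convex ℝ D1 := by
  intro x hx y hy s t hs ht hst
  obtain ⟨x0, x1, x2, x3⟩ := hx
  obtain ⟨y0, y1, y2, y3⟩ := hy
  have key : ∀ p q : ℝ, 0 < p → 0 < q → 0 < s * p + t * q := fun p q hp hq => by
    rcases lt_or_eq_of_le hs with h | h
    · exact add_pos_of_pos_of_nonneg (mul_pos h hp) (mul_nonneg ht hq.le)
    · have : t = 1 := by linarith
      rw [← h, this]; simpa using hq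
  refine ⟨key _ _ x0 y0, key _ _ x1 y1, key _ _ x2 y2, ?_⟩
  simp only [Pi.add_apply, Pi.smul_apply, smul_eq_mul]
  nlinarith [mul_le_mul_of_nonneg_left x3 hs, mul_le_mul_of_nonneg_left y3 ht]

lemma vol_D0_le : volume D0 ≤ volume D1 := by
  have hsub : D0 ⊆ D1 ∪ ⋃ i : Fin 3, {a : E | a i = 0} := by
    rintro a ⟨h0, h1, h2, h3⟩
    by_cases e0 : a 0 = 0
    · exact Or.inr (Set.mem_iUnion.2 ⟨0, e0⟩)
    by_cases e1 : a 1 = 0
    · exact Or.inr (Set.mem_iUnion.2 ⟨1, e1⟩)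
    by_cases e2 : a 2 = 0
    · exact Or.inr (Set.mem_iUnion.2 ⟨2, e2⟩)
    exact Or.inl ⟨lt_of_le_of_ne h0 (Ne.symm e0), lt_of_le_of_ne h1 (Ne.symm e1),
      lt_of_le_of_ne h2 (Ne.symm e2), h3⟩
  have hnull : volume (⋃ i : Fin 3, {a : E | a i = 0}) = 0 :=
    measure_iUnion_null fun i => Measure.pi_hyperplane (fun _ => (volume : Measure ℝ)) i 0
  calc volume D0 ≤ volume (D1 ∪ ⋃ i : Fin 3, {a : E | a i = 0}) := measure_mono hsub
    _ ≤ volume D1 + volume (⋃ i : Fin 3, {a : E | a i = 0}) := measure_union_le _ _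
    _ = volume D1 := by rw [hnull, add_zero]

lemma vol_D0_ne_top : volume D0 ≠ ⊤ := by
  have hsub : D0 ⊆ Set.Icc (0 : E) 1 := by
    rintro a ⟨h0, h1, h2, h3⟩
    refine ⟨fun i => ?_, fun i => ?_⟩ <;> fin_cases i <;> simp <;> linarith
  exact ne_top_of_le_ne_top isCompact_Icc.measure_lt_top.ne (measure_mono hsub)

lemma vol_D0_ne_zero : volume D0 ≠ 0 := by
  have hsub : Set.Icc (0 : E) (fun _ => 1 / 3) ⊆ D0 := by
    rintro a ⟨h0, h1⟩
    have := h1 0
    have := h1 1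
    have := h1 2
    exact ⟨h0 0, h0 1, h0 2, by linarith⟩
  refine ne_of_gt (lt_of_lt_of_le ?_ (measure_mono hsub))
  rw [Real.volume_Icc_pi]
  exact pos_iff_ne_zero.2 (Finset.prod_ne_zero_iff.2 fun i _ => by simp)

lemma vol_lin3 (p q r : E) (S : Set E) :
    volume (lin3 p q r '' S) = ENNReal.ofReal |det3 p q r| * volume S := by
  rw [Measure.addHaar_image_linearMap, det_lin3]

lemma zero_of_det {p q r : E} (h : det3 p q r ≠ 0) {ω : L} (hp : ω p = 0) (hq : ω q = 0)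
    (hr : ω r = 0) : ω = 0 := by
  have hs : Function.Surjective (lin3 p q r) :=
    ((lin3 p q r).equivOfDetNeZero (by rwa [det_lin3])).surjective
  refine LinearMap.ext fun x => ?_
  obtain ⟨a, rfl⟩ := hs x
  simp [lin3_apply, hp, hq, hr]

lemma zero_of_three {V : Finset E} (hV : CP V) {a b c : E} (ha : a ∈ V) (hb : b ∈ V) (hc : c ∈ V)
    (hab : a ≠ b) (hac : a ≠ c) (hbc : b ≠ c) {η ω : L} (ea : η a = 1) (eb : η b = 1)
    (ec : η c = 1) (fa : ω a = 0) (fb : ω b = 0) (fc : ω c = 0) : ω = 0 := by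
  have hi : Function.Injective (lin3 a b c) := by
    rw [← LinearMap.ker_eq_bot, LinearMap.ker_eq_bot']
    intro x hx
    rw [lin3_apply] at hx
    have h1 := congrArg η hx
    simp only [map_add, map_smul, smul_eq_mul, ea, eb, ec, mul_one, map_zero] at h1
    obtain ⟨h2, h3, h4⟩ := three_indep hV ha hb hc hab hac hbc h1 hx
    ext i
    fin_cases i <;> simpa
  have hs := LinearMap.injective_iff_surjective.1 hi
  refine LinearMap.ext fun x => ?_
  obtain ⟨y, rfl⟩ := hs x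
  simp [lin3_apply, fa, fb, fc]

end Pool.Agent.Lib.MP_7fdcdd_gt.H77
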