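import Pool.Agent.Lib.MP_7fdcdd_gt.H77.Link

/-! One step of the iteration keeps at least five eighths of the volume of a non-simplex. -/

namespace Pool.Agent.Lib.MP_7fdcdd_gt.H77

open MeasureTheory

variable {V : Finset E}

lemma mem_cv_of_weights (S : Finset E) (w : E → ℝ) (h0 : ∀ v ∈ S, 0 ≤ w v)
    (h1 : ∑ v ∈ S, w v = 1) {T : Finset E} (hT : ∀ v ∈ S, w v ≠ 0 → v ∈ T) :
    ∑ v ∈ S, w v • v ∈ cv T := by
  classical
  have e1 : ∑ y ∈ S.filter (fun y => w y ≠ 0), w y = 1 := by
    rw [Finset.sum_filter_ne_zero, h1]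
  have e2 : ∑ y ∈ S.filter (fun y => w y ≠ 0), w y • y = ∑ y ∈ S, w y • y := by
    apply Finset.sum_filter_of_ne
    intro y _ hne h0
    exact hne (by rw [h0, zero_smul])
  rw [← e2]
  exact (cv_convex T).sum_mem (fun y hy => h0 y (Finset.mem_filter.1 hy).1) e1
    (fun y hy => mem_cv_of_mem (hT y (Finset.mem_filter.1 hy).1 (Finset.mem_filter.1 hy).2))

open Classical in
/-- A point lies in at most three caps if there are at least five vertices. -/
lemma cap_mult (h5 : 4 < V.card) {y : E} (hy : y ∈ cv V) :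
    (V.filter (fun s => y ∉ cv (V.erase s))).card ≤ 3 := by
  by_contra hcon
  set B := V.filter (fun s => y ∉ cv (V.erase s)) with hB
  set t := Caratheodory.minCardFinsetOfMemConvexHull (𝕜 := ℝ) hy with ht
  have htV : ∀ v ∈ t, v ∈ V := fun v hv =>
    Caratheodory.minCardFinsetOfMemConvexHull_subseteq (𝕜 := ℝ) hy hv
  have hyt : y ∈ cv t := Caratheodory.mem_minCardFinsetOfMemConvexHull (𝕜 := ℝ) hy
  have hcard : t.card ≤ 4 := by
    have h1 := (Caratheodory.affineIndependent_minCardFinsetOfMemConvexHull (𝕜 := ℝ)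
      hy).card_le_finrank_succ
    rw [Fintype.card_coe] at h1
    have h2 := h1.trans (Nat.add_le_add_right (Submodule.finrank_le _) 1)
    rw [Module.finrank_fin_fun] at h2
    exact h2
  have hBt : B ⊆ t := fun s hs => by
    by_contra hst
    refine (Finset.mem_filter.1 hs).2 (cv_mono (fun v hv => mem_cv_of_mem ?_) hyt)
    exact Finset.mem_erase.2 ⟨fun h => hst (h ▸ hv), htV v hv⟩
  have hBeq : B = t := Finset.eq_of_subset_of_card_le hBt (by omega)
  have ht4 : t.card = 4 := by
    have := Finset.card_le_card hBt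
    omega
  obtain ⟨e, heV, het⟩ : ∃ e ∈ V, e ∉ t := Finset.exists_mem_notMem_of_card_lt_card (by omega)
  obtain ⟨w, hw0, hw1, hwy⟩ := Finset.mem_convexHull'.1 hyt
  obtain ⟨f, hf1, hf2, x0, hx0, hf3⟩ :=
    Module.exists_nontrivial_relation_sum_zero_of_finrank_succ_lt_card (R := ℝ)
      (t := insert e t) (by rw [Module.finrank_fin_fun, Finset.card_insert_of_notMem het]; omega)
  obtain ⟨μ, m1, m2, ⟨x1, hx1, m3⟩, m4⟩ : ∃ μ : E → ℝ, ∑ v ∈ insert e t, μ v • v = 0 ∧
      ∑ v ∈ insert e t, μ v = 0 ∧ (∃ x ∈ insert e t, μ x ≠ 0) ∧ μ e ≤ 0 := by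
    rcases le_total (f e) 0 with h | h
    · exact ⟨f, hf1, hf2, ⟨x0, hx0, hf3⟩, h⟩
    · exact ⟨fun v => -f v, by simp only [neg_smul, Finset.sum_neg_distrib, hf1, neg_zero],
        by simp only [Finset.sum_neg_distrib, hf2, neg_zero], ⟨x0, hx0, neg_ne_zero.2 hf3⟩,
        neg_nonpos.2 h⟩
  obtain ⟨a, ha, hpos⟩ := Finset.exists_pos_of_sum_zero_of_exists_nonzero μ m2 ⟨x1, hx1, m3⟩
  have hat : a ∈ t := (Finset.mem_insert.1 ha).resolve_left fun h => by
    rw [h] at hpos; linarith
  obtain ⟨θ, hθ, ⟨a0, ha0, -, he0⟩, hall⟩ := first_tie t w μ hw0 ⟨a, hat, hpos⟩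
  rw [Finset.sum_insert het] at m1 m2
  have hne : ∀ v ∈ t, v ≠ e := fun v hv h => het (h ▸ hv)
  have key := mem_cv_of_weights (insert e t) (fun v => (if v = e then 0 else w v) - θ * μ v)
    (fun v hv => by
      rcases Finset.mem_insert.1 hv with h | h
      · rw [h, if_pos rfl]; nlinarith
      · rw [if_neg (hne v h)]; linarith [hall v h])
    (by
      rw [Finset.sum_insert het, if_pos rfl,
        Finset.sum_congr rfl (fun v hv => by rw [if_neg (hne v hv)]), Finset.sum_sub_distrib,
        ← Finset.mul_sum, hw1]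
      have : ∑ v ∈ t, μ v = -μ e := by linarith
      rw [this]; ring) (T := V.erase a0) (fun v hv hne' => by
      rcases Finset.mem_insert.1 hv with h | h
      · rw [h]; exact Finset.mem_erase.2 ⟨(hne a0 ha0).symm, heV⟩
      · refine Finset.mem_erase.2 ⟨fun h' => hne' ?_, htV v h⟩
        rw [if_neg (hne v h), h', he0, sub_self])
  have e2 : ∑ v ∈ insert e t, ((if v = e then 0 else w v) - θ * μ v) • v = y := by
    rw [Finset.sum_insert het, if_pos rfl,
      Finset.sum_congr rfl (fun v hv => by rw [if_neg (hne v hv), sub_smul, mul_smul]),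
      Finset.sum_sub_distrib, ← Finset.smul_sum, hwy]
    have : ∑ v ∈ t, μ v • v = -(μ e • e) := eq_neg_of_add_eq_zero_right m1
    rw [this]; module
  rw [e2] at key
  rw [← hBeq] at ha0
  exact (Finset.mem_filter.1 ha0).2 key

open Classical in
lemma cap_cover (hV : CP V) (h2 : ∃ a ∈ V, ∃ b ∈ V, a ≠ b) {x : E} (hx : x ∈ cv V)
    (hx' : x ∉ cv (nxt V)) :
    ∃ s ∈ V, x ∈ AffineMap.homothety s (1 / 2 : ℝ) '' (cv V \ cv (V.erase s)) := by
  obtain ⟨l, c, h3, h4⟩ := separate (cv_convex _) (cv_compact _).isClosed hx'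
  obtain ⟨s, t, hst, h5, h6⟩ := exists_top_edge hV l h2
  have h7 := h3 _ (mem_cv_of_mem hst.mid_mem)
  rw [map_mid] at h7
  obtain ⟨w, hw0, hw1, hwx⟩ := Finset.mem_convexHull'.1 hx
  have hs := hst.1
  have hws : 1 / 2 ≤ w s := by
    have e1 : l x = ∑ v ∈ V, w v * l v := by rw [← hwx]; simp [map_sum]
    rw [← Finset.add_sum_erase V _ hs] at e1 hw1
    have e2 : ∑ v ∈ V.erase s, w v * l v ≤ ∑ v ∈ V.erase s, w v * l t :=
      Finset.sum_le_sum fun v hv => mul_le_mul_of_nonneg_left
        (h6 v (Finset.mem_of_mem_erase hv) (Finset.ne_of_mem_erase hv))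
        (hw0 v (Finset.mem_of_mem_erase hv))
    rw [← Finset.sum_mul] at e2
    have e3 : ∑ v ∈ V.erase s, w v = 1 - w s := by linarith
    rw [e3] at e2
    have e4 := h5 t hst.2.1
    by_contra hcon
    nlinarith
  refine ⟨s, hs, (2 : ℝ) • x - s, ⟨?_, fun h => ?_⟩, ?_⟩
  · have key := mem_cv_of_weights V (fun v => 2 * w v - if v = s then 1 else 0)
      (fun v hv => by
        by_cases h : v = s
        · rw [if_pos h, h]; linarith
        · rw [if_neg h]; linarith [hw0 v hv])
      (by rw [Finset.sum_sub_distrib, ← Finset.mul_sum, hw1]; simp [hs]; norm_num)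
      (T := V) (fun v hv _ => hv)
    have e2 : ∑ v ∈ V, (2 * w v - if v = s then 1 else 0) • v = (2 : ℝ) • x - s := by
      simp only [sub_smul, mul_smul, Finset.sum_sub_distrib, ← Finset.smul_sum, hwx, ite_smul,
        one_smul, zero_smul, Finset.sum_ite_eq', hs, if_true]
    rwa [e2] at key
  · have := le_of_mem_cv (l := l) (M := l t) (fun v hv =>
      h6 v (Finset.mem_of_mem_erase hv) (Finset.ne_of_mem_erase hv)) h
    rw [map_sub, map_smul, smul_eq_mul] at this
    linarith
  · rw [AffineMap.homothety_apply]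
    simp only [vsub_eq_sub, vadd_eq_add]
    module

open Classical in
lemma sum_caps_le (h5 : 4 < V.card) :
    ∑ s ∈ V, volume (cv V \ cv (V.erase s)) ≤ 3 * volume (cv V) := by
  have hm : ∀ s, MeasurableSet (cv V \ cv (V.erase s)) := fun s =>
    (cv_compact _).measurableSet.diff (cv_compact _).measurableSet
  calc ∑ s ∈ V, volume (cv V \ cv (V.erase s))
      = ∑ s ∈ V, ∫⁻ y, (cv V \ cv (V.erase s)).indicator 1 y :=
        Finset.sum_congr rfl fun s _ => (lintegral_indicator_one (hm s)).symm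
    _ = ∫⁻ y, ∑ s ∈ V, (cv V \ cv (V.erase s)).indicator 1 y :=
        (lintegral_finsetSum V fun s _ => measurable_one.indicator (hm s)).symm
    _ ≤ ∫⁻ y, (cv V).indicator (fun _ => 3) y := by
        refine lintegral_mono fun y => ?_
        by_cases hy : y ∈ cv V
        · rw [Set.indicator_of_mem hy]
          have e : ∑ s ∈ V, (cv V \ cv (V.erase s)).indicator (1 : E → ENNReal) y =
              ((V.filter (fun s => y ∉ cv (V.erase s))).card : ENNReal) := by
            rw [Finset.card_filter]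
            push_cast
            refine Finset.sum_congr rfl fun s _ => ?_
            by_cases h : y ∈ cv (V.erase s)
            · simp [Set.indicator, h]
            · simp [Set.indicator, h, hy]
          rw [e]
          exact (Nat.cast_le (α := ENNReal)).2 (cap_mult h5 hy)
        · simp [Set.indicator, hy]
    _ = 3 * volume (cv V) := lintegral_indicator_const (cv_compact _).measurableSet _

/-- One step keeps at least five eighths of the volume. -/
theorem step_five_eighths (hV : CP V) (h5 : 4 < V.card) :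
    5 / 8 * (volume (cv V)).toReal ≤ (volume (cv (nxt V))).toReal := by
  classical
  have h2 : ∃ a ∈ V, ∃ b ∈ V, a ≠ b := Finset.one_lt_card.1 (by omega)
  have hcover : cv V ⊆ cv (nxt V) ∪
      ⋃ s ∈ V, AffineMap.homothety s (1 / 2 : ℝ) '' (cv V \ cv (V.erase s)) := fun x hx => by
    by_cases h : x ∈ cv (nxt V)
    · exact Or.inl h
    · obtain ⟨s, hs, h'⟩ := cap_cover hV h2 hx h
      exact Or.inr (Set.mem_biUnion hs h')
  have h1 : volume (cv V) ≤ volume (cv (nxt V)) + ENNReal.ofReal (1 / 8) * (3 * volume (cv V)) := by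
    refine (measure_mono hcover).trans ((measure_union_le _ _).trans ?_)
    refine add_le_add_right ((measure_biUnion_finset_le _ _).trans ?_) _
    refine le_trans ?_ (mul_le_mul_right (sum_caps_le h5) _)
    rw [Finset.mul_sum]
    refine Finset.sum_le_sum fun s _ => ?_
    rw [Measure.addHaar_image_homothety, Module.finrank_fin_fun]
    norm_num
  have f1 := (cv_compact V).measure_lt_top (μ := volume)
  have f2 := (cv_compact (nxt V)).measure_lt_top (μ := volume)
  have f3 : ENNReal.ofReal (1 / 8) * (3 * volume (cv V)) ≠ ⊤ :=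
    ENNReal.mul_ne_top ENNReal.ofReal_ne_top (ENNReal.mul_ne_top (by simp) f1.ne)
  have h3 := ENNReal.toReal_mono (ENNReal.add_ne_top.2 ⟨f2.ne, f3⟩) h1
  rw [ENNReal.toReal_add f2.ne f3, ENNReal.toReal_mul, ENNReal.toReal_mul,
    ENNReal.toReal_ofReal (by norm_num)] at h3
  simp only [ENNReal.toReal_ofNat] at h3
  linarith

end Pool.Agent.Lib.MP_7fdcdd_gt.H77
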