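import Pool.Agent.Lib.MP_7fdcdd_gt.H77.Link

/-! Centrally symmetric vertex sets: the kernel contains `3/5` of the second polytope and
`2/3` of the third one. -/

namespace Pool.Agent.Lib.MP_7fdcdd_gt.H77

variable {V : Finset E}

/-- Symmetry with respect to the origin. -/
def Sy (V : Finset E) : Prop := ∀ v ∈ V, -v ∈ V

lemma Adj.neg (hY : Sy V) {a b : E} (h : Adj V a b) : Adj V (-a) (-b) := by
  obtain ⟨ha, hb, hab, l, hl⟩ := h
  refine ⟨hY a ha, hY b hb, fun h => hab (neg_injective h), -l, fun c hc h1 h2 => ?_⟩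
  have := hl (-c) (hY c hc) (fun h => h1 (by rw [← h, neg_neg])) (fun h => h2 (by rw [← h, neg_neg]))
  simpa using this

lemma Sy.nxt (hY : Sy V) : Sy (nxt V) := by
  intro m hm
  obtain ⟨a, b, h, rfl⟩ := mem_nxt.1 hm
  refine mem_nxt.2 ⟨-a, -b, h.neg hY, ?_⟩
  simp only [midpoint_eq_smul_add]
  module

lemma Sp.exists_ne4 (hS : Sp V) (a c : E) : ∃ v ∈ V, v ≠ a ∧ v ≠ -a ∧ v ≠ c ∧ v ≠ -c := by
  classical
  obtain ⟨ω, h1, h2⟩ := exists_vanish {a, c} (Finset.card_le_two)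
  have ha := h2 a (by simp)
  have hc := h2 c (by simp)
  by_contra hcon
  push Not at hcon
  have h3 : ∀ v ∈ V, ω v = 0 := fun v hv => by
    by_cases h4 : v = a
    · rw [h4, ha]
    · by_cases h5 : v = -a
      · rw [h5, map_neg, ha, neg_zero]
      · by_cases h6 : v = c
        · rw [h6, hc]
        · rw [hcon v hv h4 h5 h6, map_neg, hc, neg_zero]
  exact h1 (hS ω fun x hx y hy => (h3 x hx).trans (h3 y hy).symm)

lemma Adj.strong_top (hV : CP V) {a b : E} (h : Adj V a b) :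
    ∃ l : L, l a = l b ∧ (∀ c ∈ V, c ≠ a → c ≠ b → l c < l a) ∧ ∀ c ∈ V, l c ≤ l a := by
  obtain ⟨l, h1, h2⟩ := h.strong hV
  refine ⟨l, h1, h2, fun w hw => ?_⟩
  by_cases h3 : w = a
  · rw [h3]
  · by_cases h4 : w = b
    · rw [h4, h1]
    · exact (h2 w hw h3 h4).le

/-- Midpoints of a vertex with two opposite vertices are never adjacent. -/
lemma not_adj_opp (hV : CP V) (hS : Sp V) (hY : Sy V) {c a : E} (h1 : Adj V c a)
    (h2 : Adj V c (-a)) : ¬ Adj (nxt V) (midpoint ℝ c a) (midpoint ℝ c (-a)) := by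
  intro h
  obtain ⟨η, e, hlt, hle⟩ := h.strong_top (CP.nxt V)
  rw [map_mid, map_mid, map_neg] at e
  have ea : η a = 0 := by linarith
  have hneg : ∀ v ∈ V, v ≠ c → η v ≤ 0 := fun v hv hvc => by
    have := pair_le_of_nxt_top hV hle hv h1.1 hvc
    rw [map_mid] at this
    linarith
  obtain ⟨v, hv, n1, n2, n3, n4⟩ := hS.exists_ne4 a c
  have ev : η v = 0 := by
    have h3 := hneg v hv n3
    have h4 := hneg (-v) (hY v hv) (fun h => n4 (by rw [← h, neg_neg]))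
    rw [map_neg] at h4
    linarith
  have key : ∀ t, Adj V v t → η c ≤ η t → False := by
    intro t ht hct
    have := hlt _ ht.mid_mem (fun he => by
      rcases h1.mid_unique ht.1 ht.2.1 ht.2.2.1 he with h5 | h5
      · exact n3 h5.1
      · exact n1 h5.1) (fun he => by
      rcases h2.mid_unique ht.1 ht.2.1 ht.2.2.1 he with h5 | h5
      · exact n3 h5.1
      · exact n2 h5.1)
    rw [map_mid, map_mid] at this
    linarith
  rcases lt_or_ge 0 (η c) with hc | hc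
  · exact key c (adj_of_second hV h1.1 hv n3 (fun w hw hwc => lt_of_le_of_lt (hneg w hw hwc) hc)
      (fun w hw hwc => ev ▸ hneg w hw hwc)).symm le_rfl
  · obtain ⟨t, ht, hsec⟩ := exists_adj_second hV (l := η) hv (fun w hw => by
      by_cases hwc : w = c
      · rw [hwc, ev]; exact hc
      · exact ev ▸ hneg w hw hwc) ⟨a, h1.2.1, n1.symm⟩
    exact key t ht (hsec c h1.1 n3.symm)

/-- Neighbours of a highest point of the second polytope have nonnegative height. -/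
lemma nbr_nonneg (hV : CP V) (hS : Sp V) (hY : Sy V) {σ z : E} (hz : Adj (nxt V) σ z) {η : L}
    (htop : ∀ q ∈ nxt V, η q ≤ η σ) : 0 ≤ η z := by
  obtain ⟨s, t, hst, rfl⟩ := mem_nxt.1 hz.1
  have key : ∀ s t x : E, Adj V s t → Adj V s x →
      Adj (nxt V) (midpoint ℝ s t) (midpoint ℝ s x) →
      (∀ q ∈ nxt V, η q ≤ η (midpoint ℝ s t)) → 0 ≤ η (midpoint ℝ s x) := by
    intro s t x hst hsx hz htop
    have hxt : -x ≠ t := fun h => by
      have hx : x = -t := by rw [← h, neg_neg]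
      subst hx
      exact not_adj_opp hV hS hY hst hsx hz
    have := pair_le_of_nxt_top hV htop (hY x hsx.2.1) hst.2.1 hxt
    rw [map_mid, map_neg] at this
    rw [map_mid]
    linarith
  obtain ⟨x, -, -, ⟨hx, rfl⟩ | ⟨hx, rfl⟩⟩ := share_parent hV hst hz
  · exact key s t x hst hx hz htop
  · rw [midpoint_comm] at hz htop
    exact key t s x hst.symm hx hz htop

/-- Every neighbour of the highest point is at least as high as the gap. -/
lemma nbr_ge_gap (hV : CP V) (hS : Sp V) (hY : Sy V) {σ θ z : E} (hz : Adj (nxt V) σ z) {u : L}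
    (htop : ∀ q ∈ nxt V, u q ≤ u σ) (hsec : ∀ q ∈ nxt V, q ≠ σ → u q ≤ u θ) :
    u σ - u θ ≤ u z := by
  obtain ⟨η, e, hlt, hle⟩ := hz.strong_top (CP.nxt V)
  obtain ⟨w1, hw1, n1, n2, -⟩ := (hS.nxt hV).exists_ne σ z z
  obtain ⟨μ, hμ, ⟨w0, hw0, hg, he⟩, hall⟩ := first_tie (nxt V) (fun w => u σ - u w)
    (fun w => η σ - η w) (fun w hw => sub_nonneg.2 (htop w hw))
    ⟨w1, hw1, sub_pos.2 (hlt w1 hw1 n1 n2)⟩
  have hw0σ : w0 ≠ σ := fun h => by rw [h] at hg; simp at hg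
  have htop' : ∀ q ∈ nxt V, (u - μ • η) q ≤ (u - μ • η) σ := fun q hq => by
    have := hall q hq
    simp only [LinearMap.sub_apply, LinearMap.smul_apply, smul_eq_mul]
    linarith
  obtain ⟨z', hz', hsec'⟩ := exists_adj_second (CP.nxt V) hz.1 htop' ⟨w0, hw0, hw0σ⟩
  have h1 := hsec' w0 hw0 hw0σ
  have h2 := nbr_nonneg hV hS hY hz htop'
  have h3 := mul_nonneg hμ (nbr_nonneg hV hS hY hz' hle)
  have h4 := hsec z' hz'.2.1 hz'.2.2.1.symm
  simp only [LinearMap.sub_apply, LinearMap.smul_apply, smul_eq_mul] at h1 h2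
  rw [← e] at h2
  linarith

/-- Second neighbours of the highest point. -/
lemma nbr_nbr_ge (hV : CP V) (hS : Sp V) (hY : Sy V) {σ θ y : E} (hθ : Adj (nxt V) σ θ)
    (hy : Adj (nxt V) θ y) {u : L} (htop : ∀ q ∈ nxt V, u q ≤ u σ) : u θ - u σ ≤ u y := by
  obtain ⟨s, t, hst, rfl⟩ := mem_nxt.1 hθ.1
  have key : ∀ p p' c : E, Adj V p c → Adj (nxt V) (midpoint ℝ p c) y →
      (∀ q ∈ nxt V, u q ≤ u (midpoint ℝ p p')) →
      u (midpoint ℝ p c) - u (midpoint ℝ p p') ≤ u y := by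
    intro p p' c hpc hy htop
    obtain ⟨w, -, -, ⟨hw, rfl⟩ | ⟨hw, rfl⟩⟩ := share_parent hV hpc hy
    · have hne : c ≠ -w := fun h => by
        have hx : w = -c := by rw [h, neg_neg]
        subst hx
        exact not_adj_opp hV hS hY hpc hw hy
      have := pair_le_of_nxt_top hV htop hpc.2.1 (hY w hw.2.1) hne
      rw [map_mid, map_neg] at this
      rw [map_mid, map_mid, map_mid]
      linarith
    · have hne : p ≠ -w := fun h => by
        have hx : w = -p := by rw [h, neg_neg]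
        subst hx
        rw [midpoint_comm] at hy
        exact not_adj_opp hV hS hY hpc.symm hw hy
      have := pair_le_of_nxt_top hV htop hpc.1 (hY w hw.2.1) hne
      rw [map_mid, map_neg] at this
      rw [map_mid, map_mid, map_mid]
      linarith
  obtain ⟨x, -, -, ⟨hx, rfl⟩ | ⟨hx, rfl⟩⟩ := share_parent hV hst hθ
  · exact key s t x hx hy htop
  · rw [midpoint_comm s t] at htop ⊢
    exact key t s x hx hy htop

/-- The two witnesses. -/
lemma sym_witness (hV : CP V) (hS : Sp V) (hY : Sy V) (u : L) :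
    ∃ h g : ℝ, (∀ q ∈ nxt V, u q ≤ h) ∧ (∀ q ∈ nxt (nxt V), u q ≤ h - g / 2) ∧
      (∃ k ∈ ker V, (h + g) / 2 ≤ u k) ∧ ∃ k ∈ ker V, 3 * (h - g) / 4 ≤ u k := by
  have hQ := CP.nxt V
  have hSQ := hS.nxt hV
  obtain ⟨a, ha⟩ := hSQ.nonempty
  obtain ⟨b, hb, hba, -⟩ := hSQ.exists_ne a a a
  obtain ⟨σ, θ, hσθ, htop, hsec⟩ := exists_top_edge hQ u ⟨a, ha, b, hb, hba.symm⟩
  have hg : u θ ≤ u σ := htop θ hσθ.2.1
  refine ⟨u σ, u σ - u θ, htop, fun q hq => ?_, ?_, ?_⟩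
  · obtain ⟨x, y, hxy, rfl⟩ := mem_nxt.1 hq
    have := pair_le_of_top htop hsec hxy.1 hxy.2.1 hxy.2.2.1
    rw [map_mid]; linarith
  · obtain ⟨k, hk, h⟩ := link_witness hQ hSQ hσθ.1 u (u σ - u θ)
      (fun z hz => nbr_ge_gap hV hS hY hz htop hsec)
    exact ⟨k, ker_nxt V ▸ hk, h⟩
  · obtain ⟨k, hk, h⟩ := link_witness (CP.nxt (nxt V)) (hSQ.nxt hQ) hσθ.mid_mem u
      ((2 * u θ - u σ) / 2) (fun z hz => by
        obtain ⟨x, -, -, ⟨hx, rfl⟩ | ⟨hx, rfl⟩⟩ := share_parent hQ hσθ hz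
        · have := nbr_ge_gap hV hS hY hx htop hsec
          rw [map_mid]; linarith
        · have := nbr_nbr_ge hV hS hY hσθ hx htop
          rw [map_mid]; linarith)
    refine ⟨k, by rw [← ker_nxt, ← ker_nxt]; exact hk, ?_⟩
    rw [map_mid] at h
    linarith

lemma sym_three_fifths (hV : CP V) (hS : Sp V) (hY : Sy V) {v : E} (hv : v ∈ nxt V) :
    (3 / 5 : ℝ) • v ∈ ker V := by
  by_contra hcon
  obtain ⟨u, c, h1, h2⟩ := separate (ker_convex V) (ker_closed V) hcon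
  obtain ⟨h, g, h3, -, ⟨k1, hk1, e1⟩, ⟨k2, hk2, e2⟩⟩ := sym_witness hV hS hY u
  have := h1 k1 hk1
  have := h1 k2 hk2
  have := h3 v hv
  rw [map_smul, smul_eq_mul] at h2
  linarith

lemma sym_two_thirds (hV : CP V) (hS : Sp V) (hY : Sy V) {v : E} (hv : v ∈ nxt (nxt V)) :
    (2 / 3 : ℝ) • v ∈ ker V := by
  by_contra hcon
  obtain ⟨u, c, h1, h2⟩ := separate (ker_convex V) (ker_closed V) hcon
  obtain ⟨h, g, -, h3, ⟨k1, hk1, e1⟩, ⟨k2, hk2, e2⟩⟩ := sym_witness hV hS hY u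
  have := h1 k1 hk1
  have := h1 k2 hk2
  have := h3 v hv
  rw [map_smul, smul_eq_mul] at h2
  linarith

end Pool.Agent.Lib.MP_7fdcdd_gt.H77
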