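import Pool.Agent.Lib.MP_7fdcdd_gt.H77.Sym
import Pool.Agent.Lib.MP_7fdcdd_gt.H77.Flag
import Pool.Agent.Lib.MP_7fdcdd_gt.H77.Step
import Pool.Agent.Lib.MP_7fdcdd_gt.H77.Tet

/-! The kernel of a centrally symmetric polyhedron has at least a quarter of its volume. -/

namespace Pool.Agent.Lib.MP_7fdcdd_gt.H77

open MeasureTheory

variable {V : Finset E}

lemma Int0_of_sym (hS : Sp V) (hY : Sy V) : Int0 V := by
  intro ω hω
  by_contra hcon
  push Not at hcon
  have h : ∀ v ∈ V, ω v = 0 := fun v hv => by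
    have h1 := hcon v hv
    have h2 := hcon (-v) (hY v hv)
    rw [map_neg] at h2
    linarith
  exact hω (hS ω fun a ha b hb => (h a ha).trans (h b hb).symm)

lemma card_of_sym (hV : CP V) (hS : Sp V) (hY : Sy V) : 4 < V.card := by
  classical
  have h0 : ∀ v ∈ V, v ≠ -v := fun v hv h => by
    have hv0 : v = 0 := by
      have : (2 : ℝ) • v = 0 := by rw [two_smul]; nth_rewrite 2 [h]; simp
      simpa using this
    subst hv0
    obtain ⟨χ, hχ⟩ := hV 0 hv
    obtain ⟨w, hw, hw0, -⟩ := hS.exists_ne 0 0 0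
    have h1 := hχ w hw hw0
    have h2 := hχ (-w) (hY w hw) (neg_ne_zero.2 hw0)
    rw [map_neg] at h2
    rw [map_zero] at h1 h2
    linarith
  obtain ⟨a, ha⟩ := hS.nonempty
  obtain ⟨b, hb, n1, n2, -⟩ := hS.exists_ne4 a a
  obtain ⟨c, hc, n3, n4, n5, n6⟩ := hS.exists_ne4 a b
  have hsub : ({c, b, -b, a, -a} : Finset E) ⊆ V := by
    intro x hx
    simp only [Finset.mem_insert, Finset.mem_singleton] at hx
    rcases hx with rfl | rfl | rfl | rfl | rfl
    · exact hc
    · exact hb
    · exact hY _ hb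
    · exact ha
    · exact hY _ ha
  have hcard : ({c, b, -b, a, -a} : Finset E).card = 5 := by
    have n7 : -b ≠ a := fun h => n2 (by rw [← h, neg_neg])
    have n8 : -b ≠ -a := fun h => n1 (neg_injective h)
    rw [Finset.card_insert_of_notMem (by simp [n3, n4, n5, n6]),
      Finset.card_insert_of_notMem (by simp [n1, n2, h0 b hb]),
      Finset.card_insert_of_notMem (by simp [n7, n8]),
      Finset.card_insert_of_notMem (by simp [h0 a ha]), Finset.card_singleton]
  have := Finset.card_le_card hsub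
  omega

lemma vol_ker_sym (hV : CP V) (hS : Sp V) (hY : Sy V) :
    1 / 4 * (volume (cv V)).toReal ≤ (volume (ker V)).toReal := by
  have hQ := CP.nxt V
  have hSQ := hS.nxt hV
  have hYQ := hY.nxt
  have hsub : ker V ⊆ cv (nxt V) := ker_nxt V ▸ ker_subset _
  have h0 : (0 : E) ∈ ker V := by
    obtain ⟨a, ha⟩ := hSQ.nonempty
    have := (ker_convex V).midpoint_mem (sym_three_fifths hV hS hY ha)
      (sym_three_fifths hV hS hY (hYQ a ha))
    simpa [midpoint_eq_smul_add] using this
  have h1 := flag_bound hQ (Int0_of_sym hSQ hYQ) (ker_convex V) hsub h0 (a := 3 / 5) (b := 2 / 3)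
    (by norm_num) (fun v hv => sym_three_fifths hV hS hY hv)
    (fun v w h => ⟨1 / 3, 1 / 3, by norm_num, by norm_num, by norm_num, by
      have := sym_two_thirds hV hS hY h.mid_mem
      convert this using 1
      rw [midpoint_eq_smul_add, invOf_eq_inv]; module⟩)
    (fun η hη => by
      obtain ⟨x, hx, e⟩ := (Fac_top3 hη).ker_meets hQ
      exact ⟨x, ker_nxt V ▸ hx, e⟩)
  have f1 : volume (ker V) ≠ ⊤ :=
    ne_top_of_le_ne_top (cv_compact V).measure_lt_top.ne (measure_mono (ker_subset V))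
  have h2 := ENNReal.toReal_mono f1 h1
  rw [ENNReal.toReal_mul, ENNReal.toReal_ofReal (by norm_num)] at h2
  have h3 := step_five_eighths hV (card_of_sym hV hS hY)
  linarith

lemma Sp_of_span {S : Finset E} (hS : affineSpan ℝ (S : Set E) = ⊤) (h : cv V = cv S) : Sp V := by
  intro ω hω
  obtain ⟨a, ha⟩ : V.Nonempty := by
    by_contra hcon
    rw [Finset.not_nonempty_iff_eq_empty] at hcon
    have h1 : (S : Set E) = ∅ := by
      rw [← convexHull_eq_empty (𝕜 := ℝ)]
      have : cv V = ∅ := by rw [hcon]; simp [cv]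
      exact h.symm.trans this
    rw [h1] at hS
    simp at hS
  have h1 : ∀ x ∈ S, ω x = ω a := fun x hx => by
    have hx' : x ∈ cv V := h ▸ mem_cv_of_mem hx
    exact le_antisymm (le_of_mem_cv (fun v hv => (hω v hv a ha).le) hx')
      (ge_of_mem_cv (fun v hv => (hω v hv a ha).ge) hx')
  have h2 : affineSpan ℝ (S : Set E) ≤ AffineSubspace.mk' a (LinearMap.ker ω) :=
    affineSpan_le.2 fun x hx => by
      rw [SetLike.mem_coe, AffineSubspace.mem_mk', LinearMap.mem_ker, vsub_eq_sub, map_sub, h1 x hx,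
        sub_self]
  refine LinearMap.ext fun y => ?_
  have h3 := h2 (show y + a ∈ affineSpan ℝ (S : Set E) by rw [hS]; trivial)
  rw [AffineSubspace.mem_mk', LinearMap.mem_ker, vsub_eq_sub, add_sub_cancel_right] at h3
  exact h3

lemma vol_pos_of_span {S : Finset E} (hS : affineSpan ℝ (S : Set E) = ⊤) :
    0 < (volume (cv S)).toReal := by
  refine ENNReal.toReal_pos (ne_of_gt ?_) (cv_compact S).measure_lt_top.ne
  exact Measure.measure_pos_of_nonempty_interior _
    (interior_convexHull_nonempty_iff_affineSpan_eq_top.2 hS)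

lemma Sy_of_cv (hV : CP V) (h : ∀ x ∈ cv V, -x ∈ cv V) : Sy V := by
  intro v hv
  obtain ⟨χ, hχ⟩ := hV v hv
  have hle : ∀ w ∈ V, χ w ≤ χ v := fun w hw => by
    by_cases h' : w = v
    · rw [h']
    · exact (hχ w hw h').le
  by_contra hcon
  have h1 : -v ∈ cv ∅ := mem_cv_face (V := V) (l := -χ) (M := χ v) (fun w hw => by
      have := le_of_mem_cv hle (h w (mem_cv_of_mem hw))
      simpa using this) (h v (mem_cv_of_mem hv)) (by simp) (fun w hw he => by
      have h2 : -w = v := eq_of_exposed hχ (h w (mem_cv_of_mem hw)) (by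
        rw [← he]; simp)
      exact absurd (by rw [← h2, neg_neg]; exact hw) hcon)
  simp [cv] at h1

theorem rho_sym (S : Finset E) (hS : affineSpan ℝ (S : Set E) = ⊤) (c : E)
    (hc : ∀ x ∈ convexHull ℝ (S : Set E), (2 : ℝ) • c - x ∈ convexHull ℝ (S : Set E)) :
    1 / 4 ≤ rho (convexHull ℝ (S : Set E)) := by
  classical
  obtain ⟨V, hV, he⟩ := exists_CP S
  have hSp := Sp_of_span hS he
  set W := V.image (af (LinearEquiv.refl ℝ E) (-c)) with hW
  have hWC : CP W := hV.image _ _
  have hWS : Sp W := by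
    intro ω hω
    refine hSp ω fun a ha b hb => ?_
    have := hω _ (Finset.mem_image_of_mem _ ha) _ (Finset.mem_image_of_mem _ hb)
    simpa [af_apply] using this
  have hWY : Sy W := Sy_of_cv hWC fun x hx => by
    rw [hW, cv_image, he] at hx ⊢
    obtain ⟨y, hy, rfl⟩ := hx
    refine ⟨_, hc y hy, ?_⟩
    simp only [af_apply, LinearEquiv.refl_toLinearMap, LinearMap.id_apply]
    module
  have hpos : 0 < (volume (cv W)).toReal := by
    rw [hW, cv_image, vol_af, he]
    simpa using vol_pos_of_span hS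
  change 1 / 4 ≤ rho (cv S)
  rw [← he, ← rho_image hV (LinearEquiv.refl ℝ E) (-c), ← hW, rho_cv hWC, le_div_iff₀ hpos]
  exact vol_ker_sym hWC hWS hWY

end Pool.Agent.Lib.MP_7fdcdd_gt.H77
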